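import Mathlib.FieldTheory.PrimitiveElement
import Mathlib.LinearAlgebra.Matrix.Charpoly.Minpoly
import Mathlib.LinearAlgebra.Charpoly.ToMatrix
import Pool.Agent.MP_79c67d_ag.Cliff

/-! A function of degree `n` has a fibre with `n` different points. -/

set_option linter.unusedSectionVars false

namespace Pool.Agent.MP_79c67d_ag.H36

open FF Module Polynomial IntermediateField

variable {K F : Type} [Field K] [Field F] [Algebra K F] [IsFF K F] [CharZero K] [IsAlgClosed K]

/-- The residue map at a point. -/
noncomputable def res (P : Place K F) : P.v.valuationSubring.toSubring →+* K where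
  toFun f := val P f.1
  map_one' := by simpa using val_const P (1 : K)
  map_mul' f g := val_mul P f.2 g.2
  map_zero' := by simpa using val_const P (0 : K)
  map_add' f g := val_add P f.2 g.2

theorem norm_sub {L : Type} [Field L] [Algebra L F] [FiniteDimensional L F] (pb : PowerBasis L F)
    (c : L) : Algebra.norm L (algebraMap L F c - pb.gen) = (minpoly L pb.gen).eval c := by
  classical
  rw [← charpoly_leftMulMatrix pb, Algebra.norm_apply, map_sub, AlgHom.commutes,
    ← LinearMap.eval_charpoly, ← LinearMap.charpoly_toMatrix _ pb.basis]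
  rfl

theorem exists_regular (S : Finset F) : ∃ P : Place K F, ∀ f ∈ S, P.v f ≤ 1 := by
  obtain ⟨P, hP⟩ := (Set.Finite.biUnion S.finite_toSet fun f _ =>
    finite_ord (K := K) f).exists_notMem
  refine ⟨P, fun f hf => v_le_one_of_ord ?_⟩
  by_contra hn
  exact hP (Set.mem_biUnion hf (by intro h; simp only at h; omega))

theorem exists_over {z h : F} (hz : Transcendental K z) (hh : h ≠ 0) {P0 : Place K F}
    (h0 : P0.v z ≤ 1)
    (h1 : P0.v (algebraMap (adjoin K {z}) F (Algebra.norm (adjoin K {z}) h)) < 1) :
    ∃ P : Place K F, P.v (z - algebraMap K F (val P0 z)) < 1 ∧ P.v h < 1 := by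
  classical
  obtain ⟨c, hc, e⟩ := norm_prod hz hh
  have hne : ∀ a : K, z - algebraMap K F a ≠ 0 := fun a h =>
    transcendental_iff_ne.1 hz a (sub_eq_zero.1 h)
  have hc' : algebraMap K F c ≠ 0 := by simpa using hc
  have hp : ∀ P ∈ (div K h).support.filter (fun P => P.v z ≤ 1),
      (z - algebraMap K F (val P z)) ^ P.ord h ≠ 0 := fun P _ => zpow_ne_zero _ (hne _)
  rw [e, v_lt_one_iff _ (mul_ne_zero hc' (Finset.prod_ne_zero_iff.2 hp)),
    ord_mul _ hc' (Finset.prod_ne_zero_iff.2 hp), ord_const, zero_add, ord_prod _ _ _ hp] at h1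
  by_contra hn
  push Not at hn
  refine absurd h1 (not_lt.2 (Finset.sum_nonpos fun P hP => ?_))
  rw [ord_zpow]
  by_cases h2 : val P z = val P0 z
  · have h3 := val_spec P (Finset.mem_filter.1 hP).2
    rw [h2] at h3
    have h4 := mt (v_lt_one_iff P hh).2 (not_lt.2 (hn P h3))
    have h5 := (v_lt_one_iff P0 (hne _)).1 (val_spec P0 h0)
    rw [h2]
    exact mul_nonpos_of_nonpos_of_nonneg (by omega) h5.le
  · have h3 : P0.v (z - algebraMap K F (val P z)) = 1 :=
      v_eq_one_of_sub P0 (c := val P0 z - val P z) (sub_ne_zero.2 (Ne.symm h2)) (by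
        rw [map_sub (algebraMap K F), sub_sub_sub_cancel_right]; exact val_spec P0 h0)
    rw [ord_of_one h3, mul_zero]

theorem exists_fibre {z : F} (hz : Transcendental K z) {n : ℕ} (hn : 2 ≤ n)
    (hd : n ≤ finrank (adjoin K {z}) F) : ∃ (a : K) (x : Fin n → Place K F),
      Function.Injective x ∧ ∀ i, (x i).Ge 1 (z - algebraMap K F a) := by
  classical
  have := finDim_adjoin hz
  have : CharZero (adjoin K {z}) := algebraRat.charZero _
  let pb := Field.powerBasisOfFiniteOfSeparable (adjoin K {z}) F
  set j := algebraMap (adjoin K {z}) F with hj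
  set p := minpoly (adjoin K {z}) pb.gen with hp
  have hdeg : p.natDegree = finrank (adjoin K {z}) F := by
    rw [hp, pb.natDegree_minpoly, pb.finrank]
  have hmon : p.Monic := minpoly.monic pb.isIntegral_gen
  obtain ⟨u, v, huv⟩ : p.Separable := Algebra.IsSeparable.isSeparable _ pb.gen
  obtain ⟨P0, hP0⟩ := exists_regular (K := K)
    (insert z ((p.map j).coeffs ∪ ((u.map j).coeffs ∪ (v.map j).coeffs)))
  let O := P0.v.valuationSubring.toSubring
  have h1 : ((p.map j).coeffs : Set F) ⊆ O := fun f hf => hP0 f (by simp [Finset.mem_coe.1 hf])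
  have h2 : ((u.map j).coeffs : Set F) ⊆ O := fun f hf => hP0 f (by simp [Finset.mem_coe.1 hf])
  have h3 : ((v.map j).coeffs : Set F) ⊆ O := fun f hf => hP0 f (by simp [Finset.mem_coe.1 hf])
  set q := (p.map j).toSubring O h1 with hq
  have hq1 : q.Monic := (monic_toSubring _ _ _).2 (hmon.map j)
  have hq2 : q.Separable := ⟨(u.map j).toSubring O h2, (v.map j).toSubring O h3, by
    apply map_injective O.subtype O.subtype_injective
    rw [Polynomial.map_add, Polynomial.map_mul, Polynomial.map_mul, ← derivative_map,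
      map_toSubring, map_toSubring, map_toSubring, derivative_map, ← Polynomial.map_mul,
      ← Polynomial.map_mul, ← Polynomial.map_add, huv, Polynomial.map_one, Polynomial.map_one]⟩
  have hr : (q.map (res P0)).roots.toFinset.card = finrank (adjoin K {z}) F := by
    rw [Multiset.toFinset_card_of_nodup (nodup_roots (hq2.map)),
      (IsAlgClosed.splits _).natDegree_eq_card_roots.symm, hq1.natDegree_map, hq,
      natDegree_toSubring, hmon.natDegree_map, hdeg]
  have key : ∀ b ∈ (q.map (res P0)).roots.toFinset, ∃ P : Place K F,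
      P.v (z - algebraMap K F (val P0 z)) < 1 ∧ P.v (algebraMap K F b - pb.gen) < 1 := by
    intro b hb
    have hb1 : (q.map (res P0)).eval b = 0 := (mem_roots'.1 (Multiset.mem_toFinset.1 hb)).2
    have e1 : algebraMap K F b = j (algebraMap K _ b) := IsScalarTower.algebraMap_apply _ _ _ _
    refine exists_over hz (fun h => ?_) (hP0 z (by simp)) ?_
    · have h4 : p.natDegree = 1 := by
        rw [hp, ← sub_eq_zero.1 h, e1, hj, minpoly.eq_X_sub_C, natDegree_X_sub_C]
      omega
    · let b' : O := ⟨algebraMap K F b, P0.triv b⟩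
      have e2 : res P0 b' = b := val_const P0 b
      rw [← e2, eval_map, eval₂_hom] at hb1
      have e3 : ((q.eval b' : O) : F) = j (p.eval (algebraMap K _ b)) := by
        rw [← eval₂_hom, ← e1, ← eval_map, ← map_toSubring _ O h1, eval_map]
        exact (eval₂_hom O.subtype b').symm
      rw [e1, norm_sub, ← hp, ← e3]
      exact (val_eq_zero_iff P0 (q.eval b').2).1 hb1
  choose x hx1 hx2 using key
  obtain ⟨f⟩ : Nonempty (Fin n ↪ (q.map (res P0)).roots.toFinset) :=
    Function.Embedding.nonempty_of_card_le (by simpa [hr] using hd)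
  refine ⟨val P0 z, fun i => x _ (f i).2, fun i k h => f.injective (Subtype.ext ?_),
    fun i => (ge_one_iff _ _).2 (hx1 _ _)⟩
  have h4 := hx2 _ (f i).2
  have h5 := hx2 _ (f k).2
  rw [Valuation.map_sub_swap] at h4 h5
  simp only at h
  rw [h] at h4
  exact const_unique h4 h5

end Pool.Agent.MP_79c67d_ag.H36
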