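import Pool.Agent.MP_79c67d_ag.Dual
import Pool.Agent.MP_79c67d_ag.h36.Fib

/-! Divisors on a curve of genus `2 m` with Clifford index `m - 1` and a pencil of degree
`m + 1`. -/

set_option linter.unusedSectionVars false

namespace Pool.Agent.MP_79c67d_ag.H36

open FF Module

variable {K F : Type} [Field K] [Field F] [Algebra K F] [IsFF K F] [CharZero K] [IsAlgClosed K]

/-- The divisor of a point. -/
noncomputable abbrev pt (P : Place K F) : Divisor K F := Finsupp.single P 1

theorem pt_nonneg (P : Place K F) : 0 ≤ pt P := Finsupp.single_nonneg.2 zero_le_one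

theorem deg_pt (P : Place K F) : deg (pt P) = 1 := deg_single _ _

theorem deg_inf_sup (D E : Divisor K F) : deg (D ⊓ E) + deg (D ⊔ E) = deg D + deg E := by
  rw [← deg_add, inf_add_sup, deg_add]

theorem eq_of_le_deg {D E : Divisor K F} (h : D ≤ E) (hd : deg E ≤ deg D) : D = E := by
  have h1 := deg_mono h
  exact (sub_eq_zero.1 (eq_zero_of_deg_eq_zero (sub_nonneg.2 h)
    (by rw [deg_sub]; omega))).symm

theorem one_le_h0 {D : Divisor K F} (h : 0 ≤ D) : 1 ≤ h0 D := h0_zero (K := K) (F := F) ▸ h0_mono h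

theorem drop_cofinite (D : Divisor K F) :
    ∃ S : Finset (Place K F), ∀ P ∉ S, h0 (D - pt P) ≤ h0 D - 1 := by
  rcases Nat.eq_zero_or_pos (h0 D) with h | h
  · exact ⟨∅, fun P _ => (h0_mono (sub_pt_le D P)).trans (by omega)⟩
  obtain ⟨f, hf, hf0⟩ := exists_ne_of_h0 h
  refine ⟨(div K f + D).support, fun P hP => Nat.le_sub_one_of_lt
    (Submodule.finrank_lt_finrank_of_lt (lt_of_le_of_ne (sec_mono (sub_pt_le D P)) fun e => ?_))⟩
  rw [← e] at hf
  have := (ge_of_mem_sub hf).le hf0
  rw [Finsupp.notMem_support_iff, Finsupp.add_apply, div_apply] at hP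
  omega

theorem exists_eff (n : ℕ) (D E : Divisor K F) : ∃ G : Divisor K F, 0 ≤ G ∧ deg G = n ∧
    h0 (D - G) ≤ h0 D - n ∧ h0 (E - G) ≤ h0 E - n := by
  classical
  induction n with
  | zero => exact ⟨0, le_rfl, by simp, by simp, by simp⟩
  | succ n ih =>
    obtain ⟨G, h1, h2, h3, h4⟩ := ih
    obtain ⟨S, hS⟩ := drop_cofinite (D - G)
    obtain ⟨S', hS'⟩ := drop_cofinite (E - G)
    obtain ⟨P, hP⟩ := Infinite.exists_notMem_finset (S ∪ S')
    rw [Finset.notMem_union] at hP
    have h5 := hS P hP.1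
    have h6 := hS' P hP.2
    refine ⟨G + pt P, add_nonneg h1 (pt_nonneg P), ?_, ?_, ?_⟩
    · rw [deg_add, deg_pt, h2]; push_cast; ring
    · rw [← sub_sub]; omega
    · rw [← sub_sub]; omega

/-- The base point free pencil trick. -/
theorem pencil {T : Divisor K F} {t : Fin 2 → F} (h0' : ∀ i, t i ≠ 0) (ht : Bpf T t)
    (X : Divisor K F) : 2 * h0 X ≤ h0 (X - T) + h0 (X + T) := by
  have h1 := h0_inf_sup (X + div K (t 0)) (X + div K (t 1))
  have h2 : (X + div K (t 0)) ⊓ (X + div K (t 1)) = X - T := by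
    ext P
    have a0 := (ht.1 0 P).le (h0' 0)
    have a1 := (ht.1 1 P).le (h0' 1)
    obtain ⟨i, -, hi⟩ := ht.2 P
    simp only [Finsupp.inf_apply, Finsupp.add_apply, Finsupp.sub_apply, div_apply]
    fin_cases i
    · simp only [Fin.zero_eta] at hi; omega
    · simp only [Fin.mk_one] at hi; omega
  have h3 : (X + div K (t 0)) ⊔ (X + div K (t 1)) = X + T + div K (t 0 * t 1) := by
    rw [eq_sub_of_add_eq' (inf_add_sup _ _), h2, FF.div_mul (h0' 0) (h0' 1)]
    abel
  rw [h2, h3, h0_add_div _ (h0' 0), h0_add_div _ (h0' 1),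
    h0_add_div _ (mul_ne_zero (h0' 0) (h0' 1))] at h1
  omega

/-- A canonical divisor `W` and a pencil `T` of degree `m + 1` on a curve of genus `2 m` and
Clifford index at least `m - 1`. -/
structure Mx (m : ℕ) (W T : Divisor K F) : Prop where
  gen : genus K F = 2 * m
  rr : ∀ D : Divisor K F, (h0 D : ℤ) = deg D + 1 - 2 * m + h0 (W - D)
  cl : ∀ D : Divisor K F, 2 ≤ h0 D → 2 ≤ h0 (W - D) → h0 D + h0 (W - D) ≤ m + 2
  three : 3 ≤ m
  degT : deg T = m + 1
  hT : 2 ≤ h0 T

namespace Mx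

variable {m : ℕ} {W T : Divisor K F} (h : Mx m W T)
include h

theorem gon {D : Divisor K F} (hD : deg D ≤ m) : h0 D ≤ 1 := by
  have := h.rr D
  have := h.cl D
  have := h.three
  omega

theorem net {D : Divisor K F} (hD : deg D ≤ m + 2) : h0 D ≤ 2 := by
  have := h.rr D
  have := h.cl D
  have := h.three
  omega

theorem web {D : Divisor K F} (hD : deg D ≤ m + 4) : h0 D ≤ 3 := by
  have := h.rr D
  have := h.cl D
  have := h.three
  omega

theorem deg_ge {D : Divisor K F} {s : ℕ} (hD : s + 1 ≤ h0 D) (h1 : 1 ≤ s) (h2 : s + 2 ≤ m) :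
    3 * (s : ℤ) + 1 ≤ deg D := by
  have := h.rr D
  have := h.cl D
  omega

theorem can : Can (2 * m) W :=
  ⟨fun D => by rw [h.rr D]; push_cast; ring, fun D hD => h.gon (by have := h.three; omega)⟩

theorem degW : deg W = 4 * m - 2 := by
  have := h.can.deg_W
  push_cast at this
  omega

theorem h0T : h0 T = 2 := le_antisymm (h.net (by have := h.degT; omega)) h.hT

theorem degQ : deg (W - T) = 3 * m - 3 := by rw [deg_sub, h.degW, h.degT]; ring

theorem h0Q : h0 (W - T) = m := by
  have := h.rr T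
  have := h.h0T
  have := h.degT
  omega

theorem h0Q_sub (P : Place K F) : h0 (W - T - pt P) + 1 = m := by
  have h1 := h.rr (T + pt P)
  have h2 := h.net (D := T + pt P) (by rw [deg_add, deg_pt, h.degT]; omega)
  have h3 : h0 T ≤ h0 (T + pt P) := h0_mono (le_add_pt T P)
  have := h.hT
  rw [deg_add, deg_pt, h.degT, ← sub_sub] at h1
  omega

theorem exists_t : ∃ t : Fin 2 → F, LinearIndependent K t ∧
    Submodule.span K (Set.range t) = sec T ∧ Bpf T t :=
  exists_bpf h.h0T fun P => by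
    exact lt_of_le_of_lt (h.gon (D := T - pt P) (by rw [deg_sub, deg_pt, h.degT]; omega)) h.hT

theorem key {D : Divisor K F} (h1 : 2 ≤ h0 D) (h2 : m + 1 ≤ h0 D + h0 (W - T - D)) :
    h0 (W - T - D) ≤ 1 := by
  by_contra hn
  obtain ⟨t, ht, ht0⟩ := exists_ne_of_h0 (D := T) (by have := h.hT; omega)
  have h3 := (mem_sec_iff ht0).1 ht
  have h4 : ∀ X : Divisor K F, h0 (X - T) ≤ h0 X := fun X => by
    rw [← h0_add_div X ht0]
    refine h0_mono ?_
    rw [sub_le_iff_le_add, add_assoc]
    exact le_add_of_nonneg_right h3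
  have a1 := h.rr D
  have a2 := h.cl D h1
  have a3 := h.rr (W - T - D)
  have a4 := h.cl (W - T - D) (by omega)
  have a5 := h4 (W - D)
  have a6 := h4 (W - (W - T - D))
  rw [show W - D - T = W - T - D by abel] at a5
  rw [show W - (W - T - D) - T = D by abel] at a6
  rw [deg_sub, h.degQ] at a3
  have := h.three
  omega

/-- The residual of an effective divisor of degree `m` that lies in no pencil. -/
theorem resid {D : Divisor K F} (h1 : 0 ≤ D) (h2 : deg D = m)
    (h3 : ∀ P, h0 (D + pt P) ≤ 1) : h0 (W - D) = m ∧ deg (W - D) = 3 * m - 2 ∧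
      ∀ P, h0 (W - D - pt P) < h0 (W - D) := by
  have a1 := h.rr D
  have a2 := h.gon h2.le
  have a3 := one_le_h0 h1
  refine ⟨by omega, by rw [deg_sub, h.degW, h2]; ring, fun P => ?_⟩
  have a4 := h.rr (D + pt P)
  have a5 := h3 P
  rw [deg_add, deg_pt, ← sub_sub] at a4
  omega

theorem exists_D₁ : ∃ D : Divisor K F, 0 ≤ D ∧ deg D = m ∧ h0 (W - T - D) = 0 ∧
    ∀ P, h0 (D + pt P) ≤ 1 := by
  obtain ⟨D, h1, h2, h3, h4⟩ := exists_eff m (W - T) T
  have := h.three
  rw [h.h0Q] at h3
  rw [h.h0T] at h4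
  refine ⟨D, h1, h2, by omega, fun P => ?_⟩
  by_contra hn
  obtain ⟨t, ht, -, hb⟩ := h.exists_t
  have a1 := pencil ht.ne_zero hb (D + pt P)
  have a2 := h.rr (D + pt P + T)
  have a3 : h0 (W - (D + pt P + T)) ≤ h0 (W - T - D) := by
    rw [show W - (D + pt P + T) = W - T - D - pt P by abel]
    exact h0_mono (sub_pt_le _ _)
  rw [deg_add, deg_add, deg_pt, h.degT, h2] at a2
  obtain ⟨f, hf, hf0⟩ := exists_ne_of_h0 (D := D + pt P - T) (by omega)
  have a4 := eq_zero_of_deg_eq_zero ((mem_sec_iff hf0).1 hf) (by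
    rw [deg_add, deg_div, deg_sub, deg_add, deg_pt, h.degT, h2]; ring)
  have a5 : T - D = pt P + div K f := by
    rw [eq_neg_of_add_eq_zero_left a4]; abel
  have a6 := one_le_h0 (pt_nonneg P)
  rw [a5, h0_add_div _ hf0] at h4
  omega

theorem inf_le {X Y : Divisor K F} (hX : deg X = m + 1) (hY : deg Y = m + 1) (h1 : 2 ≤ h0 X)
    (h2 : 2 ≤ h0 Y) (hne : X ≠ Y) : deg (X ⊓ Y) + 1 ≤ m ∧ 3 ≤ h0 (X ⊔ Y) := by
  have a1 : deg (X ⊓ Y) ≤ m := by
    by_contra hn
    exact hne ((eq_of_le_deg inf_le_left (by omega)).symm.trans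
      (eq_of_le_deg inf_le_right (by omega)))
  have a2 := h.gon a1
  have a3 := h0_inf_sup X Y
  have a4 := deg_inf_sup X Y
  have a5 := h.net (D := X ⊔ Y)
  omega

theorem two {G : Divisor K F} (hG : deg G = m) {x y : Place K F} (h1 : 2 ≤ h0 (G + pt x))
    (h2 : 2 ≤ h0 (G + pt y)) : x = y := by
  by_contra hn
  have a1 := (h.inf_le (by rw [deg_add, deg_pt, hG]) (by rw [deg_add, deg_pt, hG]) h1 h2
    fun e => hn (Finsupp.single_left_injective one_ne_zero (add_left_cancel e))).1
  have a2 : deg G ≤ deg ((G + pt x) ⊓ (G + pt y)) :=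
    deg_mono (le_inf (le_add_pt G x) (le_add_pt G y))
  omega

/-- Three points that are not on a line do not span three trisecant lines. -/
theorem triangle {G : Divisor K F} (hG : deg G + 2 = m) {x y z : Place K F} (hxy : x ≠ y)
    (hxz : x ≠ z) (hyz : y ≠ z) (h1 : h0 (G + pt x + pt y + pt z) ≤ 1) {p q r : Place K F}
    (hp : 2 ≤ h0 (G + pt x + pt y + pt p)) (hq : 2 ≤ h0 (G + pt x + pt z + pt q))
    (hr : 2 ≤ h0 (G + pt y + pt z + pt r)) : False := by
  classical
  have d : ∀ a b : Place K F, deg (G + pt a + pt b) = m := fun a b => by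
    rw [deg_add, deg_add, deg_pt, deg_pt]; omega
  have d' : ∀ a b c : Place K F, deg (G + pt a + pt b + pt c) = m + 1 := fun a b c => by
    rw [deg_add, d, deg_pt]
  have hpz : p ≠ z := by rintro rfl; omega
  have hrx : r ≠ x := by
    rintro rfl
    rw [show G + pt y + pt z + pt r = G + pt r + pt y + pt z by abel] at hr
    omega
  have hrp : r ≠ p := by
    rintro rfl
    rw [show G + pt y + pt z + pt r = G + pt y + pt r + pt z by abel] at hr
    rw [show G + pt x + pt y + pt r = G + pt y + pt r + pt x by abel] at hp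
    exact hxz (h.two (d _ _) hp hr)
  have hrq : r ≠ q := by
    rintro rfl
    rw [show G + pt y + pt z + pt r = G + pt z + pt r + pt y by abel] at hr
    rw [show G + pt x + pt z + pt r = G + pt z + pt r + pt x by abel] at hq
    exact hxy (h.two (d _ _) hq hr)
  have a1 := (h.inf_le (d' _ _ _) (d' _ _ _) hp hq fun e => by
    have := congrArg (· z) e
    simp only [Finsupp.add_apply, Finsupp.single_apply, if_neg hyz, if_neg hpz] at this
    split_ifs at this <;> omega).2
  set S := (G + pt x + pt y + pt p) ⊔ (G + pt x + pt z + pt q) with hS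
  have a2 : S ≤ G + pt x + pt y + pt z + pt p + pt q := by
    refine sup_le (fun P => ?_) fun P => ?_ <;>
    · simp only [Finsupp.add_apply, Finsupp.single_apply]
      split_ifs <;> omega
  have a3 : h0 (S ⊔ (G + pt y + pt z + pt r)) ≤ 3 := by
    refine (h0_mono (E := G + pt x + pt y + pt z + pt p + pt q + pt r)
      (sup_le (a2.trans (le_add_pt _ _)) fun P => ?_)).trans (h.web ?_)
    · simp only [Finsupp.add_apply, Finsupp.single_apply]
      split_ifs <;> omega
    · rw [deg_add, deg_add, deg_add, d', deg_pt, deg_pt, deg_pt]; omega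
  have a4 := h0_inf_sup S (G + pt y + pt z + pt r)
  have a5 : S ⊓ (G + pt y + pt z + pt r) = G + pt y + pt z + pt r := by
    refine eq_of_le_deg inf_le_right ?_
    have := h.gon (D := S ⊓ (G + pt y + pt z + pt r))
    rw [d']
    omega
  have a6 := ((inf_eq_right.1 a5).trans a2) r
  simp only [Finsupp.add_apply, Finsupp.single_apply, if_neg hrx.symm, if_neg hrp.symm,
    if_neg hrq.symm, if_true] at a6
  omega

theorem exists_D₂ : ∃ D : Divisor K F, 0 ≤ D ∧ deg D = m ∧ 0 < h0 (W - T - D) ∧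
    ∀ P, h0 (D + pt P) ≤ 1 := by
  classical
  have h3 := h.three
  obtain ⟨P0⟩ : Nonempty (Place K F) := inferInstance
  set G : Divisor K F := Finsupp.single P0 ((m : ℤ) - 2) with hG
  have hG0 : 0 ≤ G := Finsupp.single_nonneg.2 (by omega)
  have hGd : deg G + 2 = m := by rw [hG, deg_single]; ring
  have a1 := h0_add_le (W - T - G) hG0
  rw [sub_add_cancel, h.h0Q] at a1
  obtain ⟨s, hs, hs'⟩ := exists_basis (sec (W - T - G)) rfl
  let i0 : Fin (finrank K (sec (W - T - G))) := ⟨0, by unfold h0 at a1; omega⟩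
  let i1 : Fin (finrank K (sec (W - T - G))) := ⟨1, by unfold h0 at a1; omega⟩
  have hm : ∀ i, s i ∈ sec (W - T - G) := fun i => hs' ▸ Submodule.subset_span ⟨i, rfl⟩
  have hne : ∀ c : K, s i0 - c • s i1 ≠ 0 := fun c e => by
    have := (hs.comp ![i0, i1] (by intro i j; fin_cases i <;> fin_cases j <;> simp [i0, i1]))
    have := Fintype.linearIndependent_iff.1 this ![1, -c] (by
      simpa [Fin.sum_univ_two, sub_eq_add_neg] using e) 0
    simp at this
  have hs1 := hs.ne_zero i1
  have hz : Transcendental K (s i0 / s i1) := transcendental_iff_ne.2 fun c e => hne c (by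
    rw [Algebra.smul_def, ← e, div_mul_cancel₀ _ hs1, sub_self])
  have a2 : 2 ≤ h0 ((-div K (s i0 / s i1)) ⊔ 0) := by
    have b1 : LinearIndependent K ![(1 : F), s i0 / s i1] := by
      rw [LinearIndependent.pair_iff' one_ne_zero]
      intro c e
      exact transcendental_iff_ne.1 hz c (by rw [← e, Algebra.smul_def, mul_one])
    have b2 := finrank_span_eq_card b1
    rw [Fintype.card_fin] at b2
    refine b2.ge.trans (Submodule.finrank_mono (Submodule.span_le.2 ?_))
    rintro _ ⟨i, rfl⟩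
    fin_cases i
    · exact sec_mono le_sup_right (sec_zero (K := K) (F := F) ▸ Submodule.mem_span_singleton_self _)
    · exact sec_mono le_sup_left (self_mem_sec _)
  have a3 := h.gon (D := (-div K (s i0 / s i1)) ⊔ 0)
  rw [deg_pole hz] at a3
  obtain ⟨a, x, hx, hx'⟩ := exists_fibre hz (n := 4) (by omega) (by omega)
  have a4 : ∀ i j, i ≠ j → 0 < h0 (W - T - (G + pt (x i) + pt (x j))) := by
    intro i j hij
    have b1 : ∀ k, (x k).Ge (-(W - T - G) (x k) + 1) (s i0 - a • s i1) := fun k => by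
      have := (hm i1 (x k)).mul (hx' k)
      rwa [mul_sub, mul_div_cancel₀ _ hs1, mul_comm, ← Algebra.smul_def] at this
    refine h0_pos (f := s i0 - a • s i1) ?_ (hne a)
    rw [show W - T - (G + pt (x i) + pt (x j)) = W - T - G - pt (x i) - pt (x j) by abel]
    refine mem_sec_sub (mem_sec_sub (Submodule.sub_mem _ (hm _) (Submodule.smul_mem _ _ (hm _)))
      (b1 i)) ?_
    rw [Finsupp.sub_apply (W - T - G), Finsupp.single_eq_of_ne (hx.ne hij).symm, sub_zero]
    exact b1 j
  have d : ∀ a b : Place K F, deg (G + pt a + pt b) = m := fun a b => by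
    rw [deg_add, deg_add, deg_pt, deg_pt]; omega
  by_contra hn
  push Not at hn
  have a5 : ∀ i j, i ≠ j → ∃ p, 2 ≤ h0 (G + pt (x i) + pt (x j) + pt p) := fun i j hij =>
    hn _ (add_nonneg (add_nonneg hG0 (pt_nonneg _)) (pt_nonneg _)) (d _ _) (a4 i j hij)
  have a6 : ∀ k, (0 : Fin 4) ≠ k → (1 : Fin 4) ≠ k →
      2 ≤ h0 (G + pt (x 0) + pt (x 1) + pt (x k)) := by
    intro k h1 h2
    by_contra hc
    obtain ⟨p, hp⟩ := a5 0 1 (by decide)
    obtain ⟨q, hq⟩ := a5 0 k h1
    obtain ⟨r, hr⟩ := a5 1 k h2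
    exact h.triangle hGd (hx.ne (by decide)) (hx.ne h1) (hx.ne h2) (by omega) hp hq hr
  exact hx.ne (by decide : (2 : Fin 4) ≠ 3)
    (h.two (d _ _) (a6 2 (by decide) (by decide)) (a6 3 (by decide) (by decide)))

end Mx

end Pool.Agent.MP_79c67d_ag.H36
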