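import Pool.Agent.MP_79c67d_ag.Defs

/-! The determinant of a vector bundle. -/

namespace Pool.Agent.MP_79c67d_ag

variable {K F : Type} [Field K] [Field F] [Algebra K F]

/-- The divisor `D` with `det E = O(D)` (in the given basis of the generic fibre). -/
noncomputable def Bundle.detDiv {n : ℕ} (E : Bundle K F n) : Divisor K F :=
  Finsupp.ofSupportFinite (fun P => - P.ord (E.g P).det)
    (E.fin.subset fun _ hP h => hP (neg_eq_zero.2 h.2))

end Pool.Agent.MP_79c67d_ag
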