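import Pool.Agent.MP_79c67d_ag.h36.Cl

/-! Nonsplit extensions of line bundles in which all sections lift. -/

set_option linter.unusedSectionVars false

namespace Pool.Agent.MP_79c67d_ag.H36

open FF Module

variable {K F : Type} [Field K] [Field F] [Algebra K F] [IsFF K F] [CharZero K] [IsAlgClosed K]

/-- A nonsplit extension of `O(B)` by `O(A)` with its sections `(a i, 0)`, `(x j, y j)`. -/
structure Dat (m : ℕ) (A B : Divisor K F) (a y x : Fin m → F) : Prop where
  ha : LinearIndependent K a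
  hab : Bpf A a
  hy : LinearIndependent K y
  hys : Submodule.span K (Set.range y) = sec B
  hyb : Bpf B y
  hx : ∀ P : Place K F, ∃ ξ : F, ∀ j, P.Ge (-A P) (x j - ξ * y j)
  nonsplit : ∀ ν : F, ¬ ∀ j, x j - ν * y j ∈ sec A

/-- The multiplication map. -/
noncomputable def mulMap {m : ℕ} (D : Divisor K F) (y : Fin m → F) : (Fin m → sec D) →ₗ[K] F :=
  ∑ j, LinearMap.mulRight K (y j) ∘ₗ (sec D).subtype ∘ₗ LinearMap.proj j

theorem mulMap_apply {m : ℕ} (D : Divisor K F) (y : Fin m → F) (t : Fin m → sec D) :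
    mulMap D y t = ∑ j, (t j : F) * y j := by simp [mulMap]

namespace Mx

variable {m : ℕ} {W T : Divisor K F} (h : Mx m W T)
include h

theorem exists_om : ∃ ω : Dual K (Adele K F), ω ≠ 0 ∧ ω ∈ Om W ∧
    ∀ D : Divisor K F, Om D ≤ (sec (W - D)).map (tw ω) := by
  have a1 := fun D : Divisor K F => Om_dim D
  have a2 : ∀ D : Divisor K F, finrank K (Om D) = h0 (W - D) := fun D => by
    have := (a1 D).2
    have := h.rr D
    have := h.gen
    omega
  have := (a1 W).1
  obtain ⟨⟨ω, hω⟩, hω0⟩ := (finrank_pos_iff_exists_ne_zero (R := K) (M := Om W)).1 (by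
    rw [a2, sub_self, h0_zero]; exact one_pos)
  have hω1 : ω ≠ 0 := fun e => hω0 (Subtype.ext e)
  refine ⟨ω, hω1, hω, fun D => ?_⟩
  have := (a1 D).1
  refine (Submodule.eq_of_le_of_finrank_le ?_ ?_).ge
  · rintro _ ⟨f, hf, rfl⟩
    exact tw_mem hω hf
  · rw [a2, ← LinearEquiv.finrank_eq (Submodule.equivMapOfInjective (tw ω)
      ((injective_iff_map_eq_zero _).2 fun f hf => tw_eq_zero hω1 hf) _)]
    exact le_rfl

theorem exists_ext {A B : Divisor K F} {y : Fin m → F} (hy : Bpf B y)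
    (hlt : finrank K (LinearMap.range (mulMap (W - A) y)) < h0 (W - (A - B))) :
    ∃ x : Fin m → F, (∀ P : Place K F, ∃ ξ : F, ∀ j, P.Ge (-A P) (x j - ξ * y j)) ∧
      ∀ ν : F, ¬ ∀ j, x j - ν * y j ∈ sec A := by
  classical
  obtain ⟨ω, h1, h2, h3⟩ := h.exists_om
  obtain ⟨f, hf, hf'⟩ : ∃ f ∈ sec (W - (A - B)), f ∉ LinearMap.range (mulMap (W - A) y) := by
    by_contra hn
    push Not at hn
    exact absurd (Submodule.finrank_mono hn) (not_le.2 hlt)
  set Φ := (LinearMap.range (mulMap (W - A) y)).map (tw ω) with hΦ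
  have h4 : tw ω f ∉ Φ.dualCoannihilator.dualAnnihilator := by
    rw [Subspace.dualCoannihilator_dualAnnihilator_eq]
    rintro ⟨f', hf1, e⟩
    rw [← sub_eq_zero, ← map_sub] at e
    exact hf' (sub_eq_zero.1 (tw_eq_zero h1 e) ▸ hf1)
  rw [Submodule.mem_dualAnnihilator] at h4
  push Not at h4
  obtain ⟨ξ, hξ, hξ'⟩ := h4
  rw [Submodule.mem_dualCoannihilator] at hξ
  have h5 : ∀ j, y j • ξ ∈ AD A ⊔ LinearMap.range (diag K) := fun j => by
    by_contra hn
    obtain ⟨η, hη, hη'⟩ := Submodule.exists_le_ker_of_notMem hn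
    obtain ⟨t, ht, rfl⟩ := h3 A ⟨fun α hα => hη' (Submodule.mem_sup_left hα),
      fun f => hη' (Submodule.mem_sup_right ⟨f, rfl⟩)⟩
    refine hη ?_
    rw [← tw_apply, tw_tw]
    refine hξ _ ⟨_, ⟨Pi.single j ⟨t, ht⟩, ?_⟩, rfl⟩
    rw [mulMap_apply, Finset.sum_eq_single j (fun i _ hi => by simp [Pi.single_eq_of_ne hi])
      (by simp), Pi.single_eq_same]
  have h6 : ∀ j, ∃ x : F, ∀ P : Place K F, P.Ge (-A P) (x - ξ.1 P * y j) := fun j => by
    obtain ⟨α, hα, _, ⟨x, rfl⟩, e⟩ := Submodule.mem_sup.1 (h5 j)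
    refine ⟨x, fun P => ?_⟩
    have e1 : α.1 P + x = y j * ξ.1 P := congrFun (congrArg Subtype.val e) P
    rw [show x - ξ.1 P * y j = -α.1 P by linear_combination e1]
    exact (hα P).neg
  choose x hx using h6
  refine ⟨x, fun P => ⟨ξ.1 P, fun j => hx j P⟩, fun ν hν => hξ' ?_⟩
  have h7 := tw_mem h2 hf
  have h8 : ξ - diag K ν ∈ AD (A - B) := fun P => by
    have := hy.ge (P := P) (n := -A P) (f := ξ.1 P - ν) fun j => by
      rw [show (ξ.1 P - ν) * y j = (x j - ν * y j) - (x j - ξ.1 P * y j) by ring]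
      exact (hν j P).sub (hx j P)
    exact this.mono (by rw [Finsupp.sub_apply]; omega)
  have h9 := h7.1 _ h8
  rwa [map_sub, h7.2, sub_zero] at h9

theorem exists_y : ∃ y : Fin m → F, LinearIndependent K y ∧
    Submodule.span K (Set.range y) = sec (W - T) ∧ Bpf (W - T) y :=
  exists_bpf h.h0Q fun P => by
    have h1 : h0 (W - T - Finsupp.single P 1) + 1 = m := h.h0Q_sub P
    have := h.h0Q
    omega

/-- The unstable extension. -/
theorem exists_dat₁ : ∃ (A : Divisor K F) (a y x : Fin m → F), deg A = 3 * m - 2 ∧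
    h0 (A + (W - T) - W) = 0 ∧ Dat m A (W - T) a y x := by
  obtain ⟨D, h1, h2, h3, h4⟩ := h.exists_D₁
  obtain ⟨a1, a2, a3⟩ := h.resid h1 h2 h4
  obtain ⟨a, ha, -, hab⟩ := exists_bpf a1 a3
  obtain ⟨y, hy, hys, hyb⟩ := h.exists_y
  obtain ⟨x, hx, hx'⟩ := h.exists_ext (A := W - D) hyb (by
    have b1 := LinearMap.finrank_range_le (mulMap (W - (W - D)) y)
    have b2 := h.gon (D := W - (W - D)) (by rw [sub_sub_cancel, h2])
    rw [finrank_pi_fintype, Finset.sum_const, Finset.card_univ, Fintype.card_fin,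
      smul_eq_mul] at b1
    have b3 := riemann_ineq (W - (W - D - (W - T)))
    rw [deg_sub, deg_sub, a2, h.degQ, h.degW, h.gen] at b3
    have b4 : m * finrank K (sec (W - (W - D))) ≤ m * 1 := Nat.mul_le_mul_left _ b2
    have := h.three
    omega)
  exact ⟨W - D, a, y, x, a2, by rw [← h3]; congr 1; abel, ha, hab, hy, hys, hyb, hx, hx'⟩

/-- The stable extension. -/
theorem exists_dat₂ : ∃ (B : Divisor K F) (a y x : Fin m → F), deg B = 3 * m - 2 ∧
    Dat m (W - T) B a y x := by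
  obtain ⟨D, h1, h2, h3, h4⟩ := h.exists_D₂
  obtain ⟨a1, a2, a3⟩ := h.resid h1 h2 h4
  obtain ⟨y, hy, hys, hyb⟩ := exists_bpf a1 a3
  obtain ⟨a, ha, -, hab⟩ := h.exists_y
  obtain ⟨x, hx, hx'⟩ := h.exists_ext (A := W - T) hyb (by
    rw [sub_sub_cancel]
    have b1 := LinearMap.finrank_range_add_finrank_ker (mulMap T y)
    rw [finrank_pi_fintype, Finset.sum_const, Finset.card_univ, Fintype.card_fin,
      smul_eq_mul, ← h0, h.h0T] at b1
    have b3 := riemann_ineq (W - (W - T - (W - D)))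
    rw [deg_sub, deg_sub, a2, h.degQ, h.degW, h.gen] at b3
    obtain ⟨s, hs, hs0⟩ := exists_ne_of_h0 h3
    obtain ⟨t, ht, -, htb⟩ := h.exists_t
    have b4 : ∀ i, ∃ c : Fin m → K, ∑ j, c j • y j = s * t i := fun i => by
      rw [← Submodule.mem_span_range_iff_exists_fun, hys]
      have := mul_mem_sec hs (htb.1 i)
      rwa [show W - T - D + T = W - D by abel] at this
    choose c hc using b4
    have b5 : 0 < finrank K (LinearMap.ker (mulMap T y)) := by
      refine (finrank_pos_iff_exists_ne_zero (R := K) (M := LinearMap.ker (mulMap T y))).2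
        ⟨⟨fun j => c 0 j • (⟨t 1, htb.1 1⟩ : sec T) -
        c 1 j • (⟨t 0, htb.1 0⟩ : sec T), ?_⟩, fun e => ?_⟩
      · rw [LinearMap.mem_ker, mulMap_apply]
        have : ∀ i k, ∑ j, c i j • t k * y j = t k * (s * t i) := fun i k => by
          rw [← hc, Finset.mul_sum]
          exact Finset.sum_congr rfl fun j _ => by rw [smul_mul_assoc, mul_smul_comm]
        simp only [Submodule.coe_sub, Submodule.coe_smul, sub_mul, Finset.sum_sub_distrib, this]
        ring
      · refine mul_ne_zero hs0 (ht.ne_zero 0) ?_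
        rw [← hc]
        refine Finset.sum_eq_zero fun j _ => ?_
        have e1 : c 0 j • t 1 - c 1 j • t 0 = 0 :=
          congrArg Subtype.val (congrFun (congrArg Subtype.val e) j)
        have := Fintype.linearIndependent_iff.1 ht ![-c 1 j, c 0 j] (by
          rw [← e1, Fin.sum_univ_two]; simp [sub_eq_neg_add]) 1
        simp only [Matrix.cons_val_one, Matrix.cons_val_fin_one] at this
        rw [this, zero_smul]
    omega)
  exact ⟨W - D, a, y, x, a2, ha, hab, hy, hys, hyb, hx, hx'⟩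

end Mx

end Pool.Agent.MP_79c67d_ag.H36
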