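import Pool.Agent.MP_79c67d_ag.h36.Cl

/-! The dual span of `O(W - T)` has only the obvious sections. The proofs follow the canonical
case. -/

set_option linter.unusedSectionVars false

namespace Pool.Agent.MP_79c67d_ag.H36

open FF Module Matrix

variable {K F : Type} [Field K] [Field F] [Algebra K F] [IsFF K F] [CharZero K] [IsAlgClosed K]

/-- The properties of a divisor that are used below. -/
structure Rig (g : ℕ) (W : Divisor K F) : Prop where
  h0Q : h0 W = g
  sub : ∀ P : Place K F, h0 (W - Finsupp.single P 1) + 1 = g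
  key : ∀ D : Divisor K F, 2 ≤ h0 D → g + 1 ≤ h0 D + h0 (W - D) → h0 (W - D) ≤ 1
  three : 3 ≤ g

theorem Mx.rig {m : ℕ} {W T : Divisor K F} (h : Mx m W T) : Rig m (W - T) :=
  ⟨h.h0Q, h.h0Q_sub, fun _ => h.key, h.three⟩

namespace Rig

variable {g : ℕ} {W : Divisor K F} (hW : Rig g W)
include hW

theorem noether_aux {V : Type} [AddCommGroup V] [Module K V] [FiniteDimensional K V]
    (hV : finrank K V = g + 1) (N Y : V →ₗ[K] F) (η : Place K F → F)
    (ha : ∀ (P : Place K F) t, P.Ge 0 (N t - η P * Y t)) (hb : ∀ t, Y t ∈ sec W)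
    (hc : ∀ t, Y t = 0 → N t = 0 → t = 0) {t0 : V} {P0 : Place K F} (h0' : Y t0 ≠ 0)
    (h1 : P0.Ge 1 (N t0 - η P0 * Y t0)) (h2 : P0.Ge (-W P0 + 1) (Y t0)) :
    ∀ y ∈ sec W, ∃ t, Y t = y ∧ N t0 * y = Y t0 * N t := by
  have br : ∀ (P : Place K F) t t', N t * Y t' - Y t * N t' =
      (N t - η P * Y t) * Y t' - Y t * (N t' - η P * Y t') := fun P t t' => by ring
  have hbr : ∀ (P : Place K F) t t', P.Ge (-W P) (N t * Y t' - Y t * N t') := fun P t t' =>
    br P t t' ▸ ((ha P t).mul0 (hb t' P)).sub ((hb t P).mul0' (ha P t'))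
  let Φ : V →ₗ[K] F := LinearMap.mulLeft K (N t0) ∘ₗ Y - LinearMap.mulLeft K (Y t0) ∘ₗ N
  have hΦ : ∀ t, Φ t = N t0 * Y t - Y t0 * N t := fun _ => rfl
  have h3 := LinearMap.finrank_range_add_finrank_ker Φ
  have h4 := finrank_range_le Φ (D := W - Finsupp.single P0 1) one_ne_zero fun t => by
    rw [one_mul, hΦ]
    refine mem_sec_sub (fun P => hbr P t0 t) ?_
    rw [br P0]
    exact ((h1.mul (hb t P0)).mono (by omega)).sub (h2.mul0' (ha P0 t))
  have h5 := hW.sub P0
  have h6 : finrank K ((LinearMap.ker Φ).map Y) = finrank K (LinearMap.ker Φ) := by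
    rw [← LinearMap.range_domRestrict]
    refine LinearMap.finrank_range_of_inj ?_
    rw [injective_iff_map_eq_zero]
    rintro ⟨t, ht⟩ h
    have h7 : Y t = 0 := h
    rw [LinearMap.mem_ker, hΦ, h7, mul_zero, zero_sub, neg_eq_zero] at ht
    exact Subtype.ext (hc t h7 ((mul_eq_zero.1 ht).resolve_left h0'))
  obtain ⟨D, h7, h8⟩ := exists_base' ((LinearMap.ker Φ).map Y) (by omega)
  have h9 := finrank_range_le Φ (D := W - D) (inv_ne_zero h0') fun t P => by
    obtain ⟨_, ⟨t1, ht1, rfl⟩, h9, h10⟩ := h8 P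
    refine Place.Ge.of_mul h9 ?_
    have e1 : N t0 * Y t1 - Y t0 * N t1 = 0 := ht1
    have e : (Y t0)⁻¹ * Φ t * Y t1 = N t1 * Y t - Y t1 * N t := by
      rw [hΦ]
      field_simp
      linear_combination Y t * e1
    rw [e, h10, Finsupp.sub_apply]
    exact (hbr P t1 t).mono (by omega)
  have h10 : finrank K ((LinearMap.ker Φ).map Y) ≤ h0 D := Submodule.finrank_mono h7
  have h12 := hW.key D (by omega) (by omega)
  have h13 : (LinearMap.ker Φ).map Y = sec W := by
    refine Submodule.eq_of_le_of_finrank_le (by rintro _ ⟨t, -, rfl⟩; exact hb t) ?_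
    have := hW.h0Q
    unfold h0 at this
    omega
  intro y hy
  rw [← h13] at hy
  obtain ⟨t, ht, rfl⟩ := hy
  exact ⟨t, rfl, sub_eq_zero.1 ht⟩

theorem noether {y z : Fin g → F} (hy : LinearIndependent K y)
    (hs : Submodule.span K (Set.range y) = sec W)
    (h : ∀ P : Place K F, ∃ η : F, ∀ j, P.Ge 0 (z j - η * y j)) :
    ∃ μ : F, ∀ j, ∃ c : K, z j - μ * y j = algebraMap K F c := by
  classical
  choose η hη using h
  let Y : (K × (Fin g → K)) →ₗ[K] F := Fintype.linearCombination K y ∘ₗ LinearMap.snd K _ _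
  let N : (K × (Fin g → K)) →ₗ[K] F := (Algebra.linearMap K F).coprod
    (Fintype.linearCombination K z)
  have hY : ∀ t, Y t = ∑ j, t.2 j • y j := fun _ => rfl
  have hN : ∀ t, N t = algebraMap K F t.1 + ∑ j, t.2 j • z j := fun _ => rfl
  have ha : ∀ (P : Place K F) t, P.Ge 0 (N t - η P * Y t) := fun P t => by
    have : N t - η P * Y t = algebraMap K F t.1 + ∑ j, t.2 j • (z j - η P * y j) := by
      rw [hY, hN, Finset.mul_sum, add_sub_assoc, ← Finset.sum_sub_distrib]
      simp only [smul_sub, mul_smul_comm]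
    rw [this]
    exact (P.ge_const _).add (Place.ge_sum fun j _ => (hη P j).smul _)
  have hb : ∀ t, Y t ∈ sec W := fun t =>
    hs ▸ (Submodule.mem_span_range_iff_exists_fun K).2 ⟨t.2, rfl⟩
  have hinj : ∀ t, Y t = 0 → t.2 = 0 := fun t ht =>
    funext (Fintype.linearIndependent_iff.1 hy t.2 ht)
  obtain ⟨P0⟩ : Nonempty (Place K F) := inferInstance
  have h1 := hW.sub P0
  have h3 := hW.three
  obtain ⟨y0, h4, h5⟩ := exists_ne_of_h0 (D := W - Finsupp.single P0 1) (by omega)
  obtain ⟨k0, rfl⟩ := (Submodule.mem_span_range_iff_exists_fun K).1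
    (hs ▸ sec_mono (sub_pt_le W P0) h4)
  obtain ⟨c0, hc0⟩ := P0.residue (ha P0 (0, k0))
  have key := hW.noether_aux (by simp [add_comm]) N Y η ha hb (fun t h6 h7 => by
      have h8 := hinj t h6
      rw [hN, h8] at h7
      exact Prod.ext (by simpa using h7) h8) (t0 := (-c0, k0)) (P0 := P0) h5
    (by
      rw [show N (-c0, k0) - η P0 * Y (-c0, k0) =
        N (0, k0) - η P0 * Y (0, k0) - algebraMap K F c0 by
          simp only [hN, hY, map_neg, map_zero]; ring]
      exact hc0) (ge_of_mem_sub h4)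
  refine ⟨N (-c0, k0) / Y (-c0, k0), fun j => ?_⟩
  obtain ⟨t, h6, h7⟩ := key (y j) (hs ▸ Submodule.subset_span ⟨j, rfl⟩)
  have h8 : t.2 = Pi.single j 1 := by
    have := hinj (t - (0, Pi.single j 1)) (by
      rw [map_sub, h6, hY]; simp [Pi.single_apply])
    exact sub_eq_zero.1 this
  have h9 : N t = algebraMap K F t.1 + z j := by
    rw [hN, h8]; simp [Pi.single_apply]
  have h10 : Y (-c0, k0) ≠ 0 := h5
  refine ⟨-t.1, ?_⟩
  rw [h9] at h7
  rw [map_neg]
  field_simp
  linear_combination -h7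

/-- Global sections of the dual span of `O(W)`. -/
theorem sections {n : ℕ} {y : Fin g → F} (hy : LinearIndependent K y)
    (hs : Submodule.span K (Set.range y) = sec W) {p : Fin g → Fin n → F}
    (hp : Submodule.span F (Set.range p) = ⊤) (h : ∑ i, y i • p i = 0) (hg : n + 1 = g)
    {v : Fin n → F} (hv : ∀ P : Place K F, v ∈ P.lat p) : ∃ k : Fin g → K, v = ∑ j, k j • p j := by
  have hy0 : y ≠ 0 := fun e => hy.ne_zero ⟨0, by omega⟩ (congrFun e _)
  obtain ⟨z, hz⟩ := comb_surj hp v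
  rw [Fintype.linearCombination_apply] at hz
  obtain ⟨μ, hμ⟩ := hW.noether (z := z) hy hs fun P => by
    obtain ⟨c, hc, e⟩ := hv P
    obtain ⟨l, hl⟩ := rel_unique hp hy0 h hg (c := z - c) (by
      simp only [Pi.sub_apply, sub_smul, Finset.sum_sub_distrib, hz, ← e, sub_self])
    refine ⟨l, fun j => ?_⟩
    rw [← hl j, Pi.sub_apply, sub_sub_cancel]
    exact hc j
  choose k hk using hμ
  refine ⟨k, ?_⟩
  have : ∑ j, k j • p j = ∑ j, z j • p j - μ • ∑ j, y j • p j := by
    rw [Finset.smul_sum, ← Finset.sum_sub_distrib]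
    exact Finset.sum_congr rfl fun j _ => by
      rw [← algebraMap_smul F, ← hk, sub_smul, mul_smul]
  rw [this, h, smul_zero, sub_zero, hz]

end Rig

end Pool.Agent.MP_79c67d_ag.H36
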