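import Pool.Agent.MP_79c67d_ag.h36.Ext
import Pool.Agent.MP_79c67d_ag.h36.Noe

/-! The dual span of a nonsplit extension of `O(W - T)` by a line bundle of degree `3 m - 2` is
stable. -/

set_option linter.unusedSectionVars false

namespace Pool.Agent.MP_79c67d_ag.H36

open FF Module Matrix

variable {K F : Type} [Field K] [Field F] [Algebra K F] [IsFF K F] [CharZero K] [IsAlgClosed K]

/-- Linear equivalence. -/
def Lin (D E : Divisor K F) : Prop := ∃ c : F, c ≠ 0 ∧ D = E + div K c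

theorem Lin.symm {D E : Divisor K F} (h : Lin D E) : Lin E D := by
  obtain ⟨c, hc, rfl⟩ := h
  exact ⟨c⁻¹, inv_ne_zero hc, by rw [FF.div_inv]; abel⟩

theorem Lin.add {D E D' E' : Divisor K F} (h : Lin D E) (h' : Lin D' E') :
    Lin (D + D') (E + E') := by
  obtain ⟨c, hc, rfl⟩ := h
  obtain ⟨d, hd, rfl⟩ := h'
  exact ⟨c * d, mul_ne_zero hc hd, by rw [FF.div_mul hc hd]; abel⟩

theorem Lin.trans {D E G : Divisor K F} (h : Lin D E) (h' : Lin E G) : Lin D G := by
  obtain ⟨c, hc, rfl⟩ := h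
  obtain ⟨d, hd, rfl⟩ := h'
  exact ⟨c * d, mul_ne_zero hc hd, by rw [FF.div_mul hc hd]; abel⟩

theorem Lin.h0_sub {D E : Divisor K F} (h : Lin D E) (W : Divisor K F) :
    h0 (D - W) = h0 (E - W) := by
  obtain ⟨c, hc, rfl⟩ := h
  rw [add_sub_right_comm, h0_add_div _ hc]

theorem Lin.deg_eq {D E : Divisor K F} (h : Lin D E) : deg D = deg E := by
  obtain ⟨c, -, rfl⟩ := h
  rw [deg_add, deg_div, add_zero]

theorem lin_of_deg {m n s : ℕ} {φ : (Fin m → F) →ₗ[F] (Fin n → F)}
    {π : (Fin n → F) →ₗ[F] (Fin s → F)} {E' : Bundle K F m} {E : Bundle K F n} {Q : Bundle K F s}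
    (h : Ex φ π) (h1 : ∀ P, Set.MapsTo φ (E'.stalk P) (E.stalk P))
    (h2 : ∀ P, Set.SurjOn π (E.stalk P) (Q.stalk P)) (h3 : E.deg ≤ E'.deg + Q.deg) :
    Lin (E'.dv + Q.dv) E.dv := by
  obtain ⟨c, hc0, hc⟩ := Bundle.exact_local h E' E Q
  refine ⟨c, hc0, eq_of_le_deg (fun P => (hc P (h1 P) (h2 P)).1) ?_⟩
  rwa [deg_add, deg_add, deg_div, add_zero, Bundle.deg_dv, Bundle.deg_dv, Bundle.deg_dv]

theorem dv_line {D : Divisor K F} {L : Bundle K F 1} (h1 : L.deg = deg D)
    (h2 : ∀ P v, v ∈ L.stalk P ↔ P.Ge (-D P) (v 0)) : L.dv = D := by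
  refine eq_of_le_deg (fun P => ?_) (by rw [L.deg_dv, h1])
  have h3 := L.det_ne P
  have h4 := (h2 P _).1 (L.row_mem P 0)
  rw [L.dv_apply]
  rw [det_fin_one] at h3 ⊢
  have := h4.le h3
  omega

theorem dv_triv {n : ℕ} {O : Bundle K F n} (h1 : O.deg = 0)
    (h2 : ∀ P v, v ∈ O.stalk P ↔ ∀ i, P.Ge 0 (v i)) : O.dv = 0 := by
  refine eq_of_le_deg (fun P => ?_) (by rw [O.deg_dv, h1, deg_zero])
  have := (Place.ge_det fun i => (h2 P _).1 (O.row_mem P i)).le (O.det_ne P)
  rw [O.dv_apply, Finsupp.zero_apply]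
  omega

theorem lin_of_rel {g n : ℕ} {p : Fin g → Fin n → F} {a : Fin g → F}
    (hp : Submodule.span F (Set.range p) = ⊤) (ha : a ≠ 0)
    (h : ∑ i, a i • p i = 0) (hg : n + 1 = g) {A : Divisor K F} (hA : Bpf A a)
    {E : Bundle K F n} (hE : ∀ P, E.stalk P = P.lat p) : Lin E.dv A := by
  obtain ⟨L, hL, hL'⟩ := exists_line (-A)
  obtain ⟨O, hO, hO'⟩ := exists_triv K F g
  have h1 := deg_of_rel hp ha h hg hA hE
  obtain ⟨c, hc, e⟩ := lin_of_deg (ex_line hp ha h hg) (E' := L) (E := O) (Q := E)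
    (fun P v hv => by
      rw [hO']
      intro i
      simpa using ((hL' P v).1 hv).mul (hA.1 i P))
    (fun P => by
      rw [hE]
      rintro _ ⟨c, hc, rfl⟩
      exact ⟨c, (hO' P c).2 hc, rfl⟩) (by rw [hO, hL, deg_neg]; omega)
  rw [dv_line hL hL', dv_triv hO hO', zero_add] at e
  exact ⟨c, hc, by rw [← e]; abel⟩

namespace Mx

variable {g : ℕ} {W T A : Divisor K F} {y a x : Fin g → F} (hW : Mx g W T)
include hW

theorem deg_fam {n : ℕ} {p : Fin g → Fin n → F}
    {a : Fin g → F} (hp : Submodule.span F (Set.range p) = ⊤) (ha : LinearIndependent K a)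
    (h : ∑ i, a i • p i = 0) {A : Divisor K F} (hA : Bpf A a) {E : Bundle K F n}
    (hE : ∀ P, E.stalk P = P.lat p) : n + 1 ≤ g ∧ (n = 0 → E.deg = 0) ∧
      (1 ≤ n → n + 2 ≤ g → 3 * (n : ℤ) + 1 ≤ E.deg) ∧ (n + 1 = g → E.deg = deg A) := by
  have h3 := hW.three
  have ha0 : a ≠ 0 := fun e => ha.ne_zero ⟨0, by omega⟩ (congrFun e _)
  refine ⟨rank_lt hp ha0 h, ?_, fun h1 h2 => ?_, fun h1 => deg_of_rel hp ha0 h h1 hA hE⟩
  · rintro rfl
    exact E.deg_rank_zero
  · rw [← E.deg_dv]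
    exact hW.deg_ge (h0_dv_ge hp (noTriv_of_rel hp ha h) hE) h1 h2

theorem quot_bound (hA : deg A = 3 * g - 2) (hD : Dat g A (W - T) a y x) {s : ℕ} {q : Fin g ⊕ Fin g → Fin s → F}
    (hq : Submodule.span F (Set.range q) = ⊤)
    (h1 : ∑ i, a i • q (Sum.inl i) + ∑ j, x j • q (Sum.inr j) = 0)
    (h2 : ∑ j, y j • q (Sum.inr j) = 0) {Q : Bundle K F s} (hQ : ∀ P, Q.stalk P = P.lat q) :
    (s + 2 = 2 * g → Lin Q.dv (W - T + A)) ∧ (1 ≤ s → 3 * (s : ℤ) + 1 ≤ Q.deg) := by
  have h3 := hW.three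
  have hy0 : y ≠ 0 := fun e => hD.hy.ne_zero ⟨0, by omega⟩ (congrFun e _)
  have ha0 : a ≠ 0 := fun e => hD.ha.ne_zero ⟨0, by omega⟩ (congrFun e _)
  obtain ⟨φ, hφ, hφr⟩ := exists_incl (Submodule.span F (Set.range fun j => q (Sum.inr j)))
  generalize finrank F (Submodule.span F (Set.range fun j => q (Sum.inr j))) = s1 at φ hφ hφr
  have hs1 : s1 ≤ s := by simpa using LinearMap.finrank_le_finrank_of_injective hφ
  obtain ⟨s2, hs2⟩ := Nat.exists_eq_add_of_le hs1
  obtain ⟨π, hπ⟩ := exists_ex hφ hs2.symm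
  have hmem : ∀ j, q (Sum.inr j) ∈ LinearMap.range φ := fun j =>
    hφr ▸ Submodule.subset_span ⟨j, rfl⟩
  choose p hp using hmem
  have hp1 : Submodule.span F (Set.range p) = ⊤ := by
    apply Submodule.map_injective_of_injective hφ
    rw [Submodule.map_span, Submodule.map_top, hφr, ← Set.range_comp]
    congr 2
    exact funext hp
  have hp2 : ∑ j, y j • p j = 0 := hφ (by simpa [map_sum, hp] using h2)
  have hπq : ∀ j, π (q (Sum.inr j)) = 0 := fun j => hp j ▸ hπ.comp _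
  have hr1 : Submodule.span F (Set.range fun i => π (q (Sum.inl i))) = ⊤ := by
    rw [eq_top_iff, ← span_map hq hπ.surj, Submodule.span_le]
    rintro _ ⟨i | j, rfl⟩
    · exact Submodule.subset_span ⟨i, rfl⟩
    · simp [hπq]
  have hr2 : ∑ i, a i • π (q (Sum.inl i)) = 0 := by
    simpa [map_sum, hπq] using congrArg π h1
  obtain ⟨Q1, hQ1⟩ := exists_bundle K hp1
  obtain ⟨Q2, hQ2⟩ := exists_bundle K hr1
  obtain ⟨a1, a2, a3, a4⟩ := hW.deg_fam hp1 hD.hy hp2 hD.hyb hQ1
  obtain ⟨b1, b2, b3, b4⟩ := hW.deg_fam hr1 hD.ha hr2 hD.hab hQ2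
  rw [hW.degQ] at a4
  rw [hA] at b4
  have m1 : ∀ P, Set.MapsTo φ (Q1.stalk P) (Q.stalk P) := fun P => by
    rw [Set.mapsTo_iff_image_subset, hQ1, hQ, Place.lat_map]
    exact Place.lat_subset fun j => hp j ▸ Place.lat_self q _
  have m2 : ∀ P, π '' Q.stalk P = Q2.stalk P := fun P => by
    rw [hQ2, hQ, Place.lat_map]
    refine (Place.lat_subset ?_).antisymm
      (Place.lat_subset fun i => Place.lat_self (fun i => π (q i)) _)
    rintro (i | j)
    · exact Place.lat_self (fun i => π (q (Sum.inl i))) i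
    · rw [hπq]; exact Place.lat_zero
  have hle := Bundle.deg_add_le hπ m1 fun P => (m2 P).ge
  refine ⟨fun hs => ?_, fun hs => ?_⟩
  · refine (lin_of_deg hπ m1 (fun P => (m2 P).ge)
      (Bundle.deg_add_eq hπ m1 m2 fun P v hv hv0 => ?_).ge).symm.trans
      ((lin_of_rel hp1 hy0 hp2 (by omega) hD.hyb hQ1).add
        (lin_of_rel hr1 ha0 hr2 (by omega) hD.hab hQ2))
    rw [hQ] at hv
    obtain ⟨c, hc, rfl⟩ := hv
    rw [Fintype.sum_sum_type] at hv0 ⊢
    obtain ⟨l, hl⟩ := rel_unique hr1 ha0 hr2 (by omega) (c := fun i => c (Sum.inl i)) (by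
      simpa [map_sum, hπq] using hv0)
    have hl1 := hD.hab.ge (P := P) (n := 0) (f := l) fun i => hl i ▸ hc _
    obtain ⟨ξ, hξ⟩ := hD.hx P
    refine ⟨∑ j, (c (Sum.inr j) - l * (x j - ξ * y j)) • p j, ?_, ?_⟩
    · rw [hQ1]
      exact ⟨_, fun j => (hc _).sub ((hl1.mul (hξ j)).mono (by omega)), rfl⟩
    · have e1 := congrArg (l • ·) h1
      have e2 := congrArg ((l * ξ) • ·) h2
      simp only [smul_add, Finset.smul_sum, smul_smul, smul_zero] at e1 e2
      rw [map_sum]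
      simp only [map_smul, hp]
      simp only [hl, mul_sub, sub_smul, Finset.sum_sub_distrib,
        ← mul_assoc, e2, sub_zero, eq_neg_of_add_eq_zero_left e1]
      abel
  · by_contra hn
    have hs20 : s2 = 0 := by omega
    have hsat := Bundle.sat_of_deg hπ m1 (fun P => (m2 P).ge) (by omega)
    have hz : ∀ v, π v = 0 := fun v => by subst hs20; exact Subsingleton.elim _ _
    choose v hv using fun i => hπ.lift (hz (q (Sum.inl i)))
    choose k hk using fun i => hW.rig.sections hD.hy hD.hys hp1 hp2 (by omega) (v := v i) fun P => by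
      obtain ⟨w, hw, e⟩ := hsat P (q (Sum.inl i)) (hQ P ▸ Place.lat_self q _) (hz _)
      rw [← hQ1, ← hφ (e.trans (hv i).symm)]
      exact hw
    obtain ⟨ν, hν⟩ := rel_unique hp1 hy0 hp2 (by omega)
      (c := fun j => ∑ i, k i j • a i + x j) (by
        have e : ∑ i, a i • v i + ∑ j, x j • p j = 0 := hφ (by simpa [map_sum, hp, hv] using h1)
        simp only [add_smul, Finset.sum_add_distrib, Finset.sum_smul]
        rw [← e, Finset.sum_comm]
        congr 1
        refine Finset.sum_congr rfl fun i _ => ?_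
        rw [hk, Finset.smul_sum]
        exact Finset.sum_congr rfl fun j _ => by rw [smul_assoc, smul_comm])
    refine hD.nonsplit ν fun j => ?_
    rw [← hν j, sub_add_cancel_right]
    exact Submodule.neg_mem _ (Submodule.sum_mem _ fun i _ => Submodule.smul_mem _ _ (hD.hab.1 i))

theorem exists_family (hD : Dat g A (W - T) a y x) {r : ℕ} (hr : r + 2 = 2 * g) :
    ∃ q : Fin g ⊕ Fin g → Fin r → F, Submodule.span F (Set.range q) = ⊤ ∧
      ∑ i, a i • q (Sum.inl i) + ∑ j, x j • q (Sum.inr j) = 0 ∧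
      ∑ j, y j • q (Sum.inr j) = 0 ∧ LinearIndependent K q := by
  classical
  have h3 := hW.three
  let τ : Fin 2 → Fin g ⊕ Fin g → F := ![Sum.elim a x, Sum.elim 0 y]
  have hτ : LinearIndependent F τ := by
    rw [LinearIndependent.pair_iff]
    intro l m h
    have h1 := congrFun h (Sum.inl ⟨0, by omega⟩)
    have h2 := congrFun h (Sum.inr ⟨0, by omega⟩)
    have h4 : l = 0 := by simpa [hD.ha.ne_zero] using h1
    exact ⟨h4, by simpa [h4, hD.hy.ne_zero] using h2⟩
  obtain ⟨π, hπ, hker⟩ := exists_quot (Submodule.span F (Set.range τ)) (s := r) (by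
    rw [finrank_span_eq_card hτ]; simp; omega)
  have hc : ∀ c : Fin g ⊕ Fin g → F, ∑ i, c i • π (Pi.single i 1) = π c := fun c => by
    conv_rhs => rw [pi_eq_sum_univ' c]
    simp [map_sum]
  have hτ0 : ∀ i, π (τ i) = 0 := fun i => by
    rw [← LinearMap.mem_ker, hker]; exact Submodule.subset_span ⟨i, rfl⟩
  refine ⟨fun i => π (Pi.single i 1), ?_, ?_, ?_, ?_⟩
  · rw [eq_top_iff]
    intro v _
    obtain ⟨c, rfl⟩ := hπ v
    exact (Submodule.mem_span_range_iff_exists_fun F).2 ⟨c, hc c⟩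
  · have := hτ0 0
    rw [← hc, Fintype.sum_sum_type] at this
    exact this
  · have := hτ0 1
    rw [← hc, Fintype.sum_sum_type] at this
    simpa [τ] using this
  · rw [Fintype.linearIndependent_iff]
    intro k hk
    have h1 : (fun i => algebraMap K F (k i)) ∈ Submodule.span F (Set.range τ) := by
      rw [← hker, LinearMap.mem_ker, ← hc, ← hk]
      simp
    obtain ⟨l, hl⟩ := (Submodule.mem_span_range_iff_exists_fun F).1 h1
    have h2 : l 0 = 0 := eq_zero_of_const (by omega) hD.ha fun i => ⟨k (Sum.inl i), by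
      simpa [τ] using congrFun hl (Sum.inl i)⟩
    have h4 : l 1 = 0 := eq_zero_of_const (by omega) hD.hy fun i => ⟨k (Sum.inr i), by
      simpa [τ, h2] using congrFun hl (Sum.inr i)⟩
    intro i
    have := congrFun hl i
    simpa [h2, h4] using this.symm

end Mx

/-- A generated system on a stable bundle is stable for small `α`. -/
theorem small_stable {r : ℕ} (hr : 0 < r) {ι : Type} [Fintype ι] {q : ι → Fin r → F}
    (hli : LinearIndependent K q) {E : Bundle K F r} (hE : ∀ P, E.stalk P = P.lat q)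
    (hs : ∀ (m : ℕ) (T : Bundle K F m) (φ : (Fin m → F) →ₗ[F] (Fin r → F)), 0 < m → m < r →
      Function.Injective φ → (∀ P, Set.MapsTo φ (T.stalk P) (E.stalk P)) →
        T.deg * r < E.deg * m) :
    ∃ S : CohSys K F r, S.E = E ∧ S.HasType E.deg (Fintype.card ι) ∧ S.Generated ∧
      ∃ ε : ℝ, 0 < ε ∧ ∀ α, 0 < α → α < ε → S.Stable α := by
  have hn : finrank K (Submodule.span K (Set.range q)) = Fintype.card ι :=
    finrank_span_eq_card hli
  have hr0 : (0 : ℝ) < r := by exact_mod_cast hr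
  have hc0 : (0 : ℝ) ≤ Fintype.card ι := Nat.cast_nonneg _
  refine ⟨⟨E, Submodule.span K (Set.range q), fun s hs P => hE P ▸ Place.lat_span hs⟩, rfl,
    ⟨rfl, hn⟩, fun P s hs => ⟨Fintype.card ι, q ∘ (Fintype.equivFin ι).symm,
      fun i => Submodule.subset_span ⟨_, rfl⟩, ?_⟩, 1 / ((Fintype.card ι + 1) * r), by positivity,
    fun α hα hα' m T φ hm hT hne => ?_⟩
  · refine Place.lat_subset (fun i => ?_) (hE P ▸ hs)
    simpa using Place.lat_self (q ∘ (Fintype.equivFin ι).symm) (Fintype.equivFin ι i)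
  obtain ⟨hφ, hT1, hT2⟩ := hT
  have hmr : m ≤ r := by simpa using LinearMap.finrank_le_finrank_of_injective hφ
  have hV : T.V.map (φ.restrictScalars K) ≤ Submodule.span K (Set.range q) := by
    rintro _ ⟨v, hv, rfl⟩; exact hT2 hv
  have hfin : FiniteDimensional K (Submodule.span K (Set.range q)) :=
    FiniteDimensional.span_of_finite K (Set.finite_range _)
  have hV1 : finrank K (T.V.map (φ.restrictScalars K)) = finrank K T.V :=
    (LinearEquiv.finrank_eq (Submodule.equivMapOfInjective (φ.restrictScalars K) hφ _)).symm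
  have hV2 := Submodule.finrank_mono hV
  rw [hn, hV1] at hV2
  have hV3 : (finrank K T.V : ℝ) ≤ Fintype.card ι := by exact_mod_cast hV2
  simp only [CohSys.slope, hn]
  rcases hmr.eq_or_lt with rfl | hlt
  · obtain ⟨π, hπ⟩ := exists_ex (s := 0) hφ (add_zero _)
    obtain ⟨O, hO, hO'⟩ := exists_triv K F 0
    have m2 : ∀ P, Set.SurjOn π (E.stalk P) (O.stalk P) := fun P v _ =>
      ⟨0, hE P ▸ Place.lat_zero, Subsingleton.elim _ _⟩
    have hle : T.E.deg + O.deg ≤ E.deg := Bundle.deg_add_le hπ hT1 m2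
    rw [hO, add_zero] at hle
    rw [← add_div, ← add_div, div_lt_div_iff_of_pos_right hr0]
    rcases hle.lt_or_eq with h4 | h4
    · have : (T.E.deg : ℝ) < E.deg := by exact_mod_cast h4
      nlinarith
    · have hsat := Bundle.sat_of_deg hπ hT1 m2 (by rw [hO, add_zero]; exact h4.ge)
      have h5 : T.V.map (φ.restrictScalars K) < Submodule.span K (Set.range q) :=
        lt_of_le_of_ne hV fun e => hne ⟨fun P v hv => hsat P v hv (Subsingleton.elim _ _),
          fun v hv => by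
            have : v ∈ T.V.map (φ.restrictScalars K) := e ▸ hv
            exact this⟩
      have h6 := Submodule.finrank_lt_finrank_of_lt h5
      rw [hn, hV1] at h6
      have h7 : (finrank K T.V : ℝ) < Fintype.card ι := by exact_mod_cast h6
      rw [h4]
      nlinarith
  · have h4 : T.E.deg * r + 1 ≤ E.deg * m := hs m T.E φ hm hlt hφ hT1
    have h5 : (T.E.deg : ℝ) * r + 1 ≤ E.deg * m := by exact_mod_cast h4
    have hm0 : (0 : ℝ) < m := by exact_mod_cast hm
    rw [lt_div_iff₀ (by positivity)] at hα'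
    rw [← add_div, ← add_div, div_lt_div_iff₀ hm0 hr0]
    have h6 : α * (finrank K T.V : ℝ) * r ≤ α * Fintype.card ι * r := by gcongr
    have h7 : 0 ≤ α * Fintype.card ι * m := by positivity
    have h8 : 0 ≤ α * r := by positivity
    nlinarith

theorem Mx.exists_stable {m : ℕ} {W T : Divisor K F} (h : Mx m W T) {r : ℕ}
    (hr : r + 2 = 2 * m) : ∃ S : CohSys K F r, S.HasType (6 * m - 5) (2 * m) ∧ S.Generated ∧
      h0 (S.E.dv - W) = 0 ∧ ∃ ε : ℝ, 0 < ε ∧ ∀ α, 0 < α → α < ε → S.Stable α := by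
  have h3 := h.three
  obtain ⟨A, a, y, x, hA, hA', hD⟩ := h.exists_dat₁
  obtain ⟨q, hq, h1, h2, hli⟩ := h.exists_family hD hr
  obtain ⟨E, hE⟩ := exists_bundle K hq
  have hl := (h.quot_bound hA hD hq h1 h2 hE).1 hr
  have hd : E.deg = 6 * m - 5 := by rw [← E.deg_dv, hl.deg_eq, deg_add, h.degQ, hA]; ring
  obtain ⟨S, rfl, hS, hS', hS''⟩ := small_stable (by omega) hli hE fun k N φ hk hkr hφ hN => by
    obtain ⟨s, hs⟩ := Nat.exists_eq_add_of_le hkr.le
    obtain ⟨π, hπ⟩ := exists_ex hφ hs.symm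
    obtain ⟨Q, hQ⟩ := exists_bundle K (span_map hq hπ.surj)
    have hb := (h.quot_bound hA hD (span_map hq hπ.surj)
      (by simpa [map_sum] using congrArg π h1) (by simpa [map_sum] using congrArg π h2) hQ).2
      (by omega)
    have hle : N.deg + Q.deg ≤ E.deg := Bundle.deg_add_le hπ hN fun P => by
      rw [Set.SurjOn, hQ, hE, Place.lat_map]
    have a1 : N.deg ≤ 3 * k := by omega
    have a2 : E.deg = 3 * r + 1 := by omega
    have a3 : (0 : ℤ) < k := by omega
    have a4 : (0 : ℤ) ≤ r := by omega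
    rw [a2]
    nlinarith
  refine ⟨S, ?_, hS', by rw [hl.h0_sub, add_comm, hA'], hS''⟩
  rw [hd, Fintype.card_sum, Fintype.card_fin, ← two_mul] at hS
  exact hS

end Pool.Agent.MP_79c67d_ag.H36
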