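import Pool.Agent.MP_79c67d_ag.h36.Quot

/-! Rank two systems of type `(2, 6 m - 5, 2 m)`. -/

set_option linter.unusedSectionVars false

namespace Pool.Agent.MP_79c67d_ag.H36

open FF Module Matrix

variable {K F : Type} [Field K] [Field F] [Algebra K F] [IsFF K F] [CharZero K] [IsAlgClosed K]

theorem hermite_dv (N : Bundle K F 2) : ∃ (A B C : Divisor K F) (ξ : Place K F → F),
    (∀ P : Place K F, P.Ge (-C P) (ξ P)) ∧ A + B = N.dv ∧
      ∀ P v, v ∈ N.stalk P ↔ P.Ge (-B P) (v 1) ∧ P.Ge (-A P) (v 0 - ξ P * v 1) := by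
  choose α β ξ h1 h2 using fun P => hermite_local P (N.g P) (N.det_ne P)
  have good : ∀ P : Place K F, ((∀ i j, P.Ge 0 (N.g P i j)) ∧ P.ord (N.g P).det = 0) →
      α P = 0 ∧ β P = 0 ∧ max 0 (- P.ord (ξ P)) = 0 := by
    intro P hP
    have h3 := Place.lat_subset_of_ord (u := 1) (N.det_ne P) (fun j => lat_one.2 (hP.1 j))
      (by simp [hP.2])
    have h4 := ((h2 P _).1 (h3 (Place.lat_self _ 0))).2
    obtain ⟨h5, h6⟩ := (h2 P _).1 (h3 (Place.lat_self _ 1))
    simp only [one_apply_eq, ne_eq, zero_ne_one, not_false_eq_true, one_apply_ne, mul_zero,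
      sub_zero, one_ne_zero, mul_one, zero_sub] at h4 h5 h6
    have h7 := h4.le one_ne_zero
    have h8 := h5.le one_ne_zero
    have h9 := h1 P
    rw [P.ord_one] at h7 h8
    refine ⟨by omega, by omega, ?_⟩
    rcases P.ge_iff'.1 h6 with h | h
    · simp [neg_eq_zero.1 h]
    · rw [P.ord_neg] at h; omega
  refine ⟨Finsupp.ofSupportFinite α (N.fin.subset fun P hP h => hP (good P h).1),
    Finsupp.ofSupportFinite β (N.fin.subset fun P hP h => hP (good P h).2.1),
    Finsupp.ofSupportFinite (fun P => max 0 (- P.ord (ξ P)))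
      (N.fin.subset fun P hP h => hP (good P h).2.2), ξ, fun P => P.ge_of_le ?_, ?_, h2⟩
  · change -max 0 (- P.ord (ξ P)) ≤ _
    omega
  · exact Finsupp.ext h1

/-- A map to `O(W)` with small degree and few sections destabilises. -/
theorem not_stable_of_hom (S : CohSys K F 2) {A B W : Divisor K F} {ξ : Place K F → F}
    (hdeg : deg A + deg B = S.E.deg)
    (hN : ∀ P v, v ∈ S.E.stalk P ↔ P.Ge (-B P) (v 1) ∧ P.Ge (-A P) (v 0 - ξ P * v 1))
    {w : F × F} (hw : w ∈ HH (W - B) (W - A) (-ξ)) (hw0 : w ≠ 0) (hd : 2 * deg W ≤ S.E.deg)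
    (hn : 2 * h0 W ≤ finrank K S.V) (hn0 : 0 < finrank K S.V) {α : ℝ} (hα : 0 < α) :
    ¬ S.Stable α := by
  intro hst
  have hfin : FiniteDimensional K S.V := Module.finite_of_finrank_pos hn0
  have hw1 : ¬ (w.1 = 0 ∧ w.2 = 0) := fun h => hw0 (Prod.ext h.1 h.2)
  let t : Fin 2 → F := ![w.1, -w.2]
  have ht : t ≠ 0 := fun h => hw1 ⟨congrFun h 0, neg_eq_zero.1 (congrFun h 1)⟩
  let τ : F →ₗ[K] (Fin 2 → F) := (LinearMap.toSpanSingleton F _ t).restrictScalars K
  have hτ : Function.Injective τ := smul_left_injective F ht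
  let Λ : Submodule K F := S.V.comap τ
  have hΛ : FiniteDimensional K Λ :=
    FiniteDimensional.of_injective (τ.restrict (p := Λ) (q := S.V) fun _ h => h)
      fun a b h => Subtype.ext (hτ (congrArg Subtype.val h))
  let ψ : S.V →ₗ[K] F := (LinearMap.mulLeft K w.2 ∘ₗ LinearMap.proj 0 +
    LinearMap.mulLeft K w.1 ∘ₗ LinearMap.proj 1) ∘ₗ S.V.subtype
  have h4 := LinearMap.finrank_range_add_finrank_ker ψ
  have h5 : finrank K (LinearMap.range ψ) ≤ h0 W := by
    refine Submodule.finrank_mono ?_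
    rintro _ ⟨v, rfl⟩ P
    obtain ⟨h5, h6⟩ := (hN P v).1 (S.mem v v.2 P)
    have := pair_mem (v := (v.1 0, v.1 1)) h6 hw le_rfl (by simpa using h5)
    rw [sub_zero] at this
    exact this
  have h6 : finrank K (LinearMap.ker ψ) ≤ finrank K Λ := by
    rw [← Submodule.finrank_map_subtype_eq]
    refine (Submodule.finrank_mono ?_).trans (Submodule.finrank_map_le τ Λ)
    rintro _ ⟨v, hv, rfl⟩
    have h6 : w.2 * v.1 0 + w.1 * v.1 1 = 0 := hv
    obtain ⟨l, hl⟩ : ∃ l : F, τ l = v.1 := by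
      by_cases h7 : w.1 = 0
      · have h8 : w.2 ≠ 0 := fun h => hw1 ⟨h7, h⟩
        refine ⟨-(v.1 1 / w.2), funext fun i => ?_⟩
        rw [h7, zero_mul, add_zero, mul_eq_zero] at h6
        fin_cases i <;> simp [τ, t, h7, h8, h6.resolve_left h8]
      · refine ⟨v.1 0 / w.1, funext fun i => ?_⟩
        fin_cases i
        · simp [τ, t, h7]
        · simp only [τ, t, LinearMap.restrictScalars_apply, LinearMap.toSpanSingleton_apply,
            Fin.mk_one, Pi.smul_apply, smul_eq_mul, cons_val_one, cons_val_fin_one]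
          field_simp
          linear_combination -h6
    exact ⟨l, show τ l ∈ S.V from hl ▸ v.2, hl⟩
  obtain ⟨D, hD, hD'⟩ := exists_base' Λ (by omega)
  obtain ⟨L, hL, hL'⟩ := exists_line ((A + B - W) ⊔ D)
  let e := (LinearEquiv.funUnique (Fin 1) K F).symm
  let T : CohSys K F 1 := ⟨L, Λ.map e.toLinearMap, by
    rintro _ ⟨f, hf, rfl⟩ P
    exact (hL' P _).2 (sec_mono le_sup_right (hD hf) P)⟩
  have h7 := hst 1 T (lineMap t) one_pos ⟨lineMap_inj ht, fun P v hv => ?_, ?_⟩ fun h => ?_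
  · have h8 : finrank K T.V = finrank K Λ := e.finrank_map_eq Λ
    have h9 := deg_mono (le_sup_left : A + B - W ≤ (A + B - W) ⊔ D)
    rw [deg_sub, deg_add, hdeg, ← hL] at h9
    have h10 : (S.E.deg : ℝ) ≤ 2 * L.deg := by exact_mod_cast (by omega : S.E.deg ≤ 2 * L.deg)
    have h11 : (finrank K S.V : ℝ) ≤ 2 * finrank K Λ := by
      exact_mod_cast (by omega : finrank K S.V ≤ 2 * finrank K Λ)
    simp only [CohSys.slope, h8] at h7
    push_cast at h7
    change (L.deg : ℝ) / 1 + _ < _ at h7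
    nlinarith
  · have h8 := (hL' P v).1 hv
    rw [Finsupp.sup_apply] at h8
    rcases le_total ((A + B - W : Divisor K F) P) (D P) with h9 | h9
    · rw [sup_eq_right.2 h9] at h8
      obtain ⟨f, hf, hf0, hf1⟩ := hD' P
      have h10 : P.Ge 0 (v 0 / f) := Place.Ge.of_mul hf0 (by
        rw [div_mul_cancel₀ _ hf0, zero_add, hf1]; exact h8)
      have := Place.lat_smul h10 (S.mem _ hf P)
      rwa [show (v 0 / f) • τ f = lineMap t v by
        simp [τ, smul_smul, hf0]] at this
    · rw [sup_eq_left.2 h9, Finsupp.sub_apply, Finsupp.add_apply] at h8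
      have h10 := h8.mul (hw P).1
      have h11 := h8.mul (hw P).2
      rw [Finsupp.sub_apply] at h10 h11
      refine (hN P _).2 ⟨?_, ?_⟩
      · simpa [t] using h10.neg.mono (m := -B P) (by omega)
      · have := h11.mono (m := -A P) (by omega)
        rwa [show v 0 * (w.1 - (-ξ) P * w.2) = lineMap t v 0 - ξ P * lineMap t v 1 by
          simp [t]; ring] at this
  · rintro _ ⟨f, hf, rfl⟩
    exact hf
  · obtain ⟨P⟩ : Nonempty (Place K F) := inferInstance
    obtain ⟨a, -, ha⟩ := h.1 P (S.E.row_mem P 0)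
    obtain ⟨b, -, hb⟩ := h.1 P (S.E.row_mem P 1)
    apply S.E.det_ne P
    rw [det_fin_two, ← ha, ← hb]
    simp only [lineMap_apply, Pi.smul_apply, smul_eq_mul]
    ring

theorem exists_parallel {H : Submodule K (F × F)} [FiniteDimensional K H] (h3 : 3 ≤ finrank K H)
    {D : Divisor K F} (hD : h0 D ≤ 2) (hw : ∀ u ∈ H, ∀ v ∈ H, u.1 * v.2 - u.2 * v.1 ∈ sec D) :
    ∃ u ∈ H, ∃ v ∈ H, LinearIndependent K ![u, v] ∧ u.1 * v.2 - u.2 * v.1 = 0 := by
  obtain ⟨w, hw1⟩ := exists_linearIndependent_of_le_finrank h3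
  have hw2 := Fintype.linearIndependent_iff.1 (hw1.map' H.subtype H.ker_subtype)
  have key : ∀ (i j k : Fin 3) (c d e : K), i ≠ j → i ≠ k → j ≠ k → e ≠ 0 →
      c • ((w j).1.1 * (w k).1.2 - (w j).1.2 * (w k).1.1) +
        d • ((w k).1.1 * (w i).1.2 - (w k).1.2 * (w i).1.1) +
        e • ((w i).1.1 * (w j).1.2 - (w i).1.2 * (w j).1.1) = 0 →
      ∃ u ∈ H, ∃ v ∈ H, LinearIndependent K ![u, v] ∧ u.1 * v.2 - u.2 * v.1 = 0 := by
    intro i j k c d e hij hik hjk he h
    refine ⟨_, (e • w i - c • w k).2, _, (e • w j - d • w k).2, ?_, ?_⟩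
    · rw [LinearIndependent.pair_iff]
      intro s t hst
      have h1 := hw2 (Pi.single i (s * e) + Pi.single j (t * e) - Pi.single k (s * c + t * d)) (by
        simp only [Pi.add_apply, Pi.sub_apply, add_smul, sub_smul, Finset.sum_add_distrib,
          Finset.sum_sub_distrib, Pi.single_apply, ite_smul, zero_smul, Finset.sum_ite_eq',
          Finset.mem_univ, if_true, Function.comp_apply, Submodule.subtype_apply]
        rw [← hst]
        simp only [Submodule.coe_sub, Submodule.coe_smul, smul_sub, smul_smul]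
        abel)
      have h2 := h1 i
      have h4 := h1 j
      simp only [Pi.add_apply, Pi.sub_apply, Pi.single_eq_same, Pi.single_eq_of_ne hij,
        Pi.single_eq_of_ne hik, Pi.single_eq_of_ne hij.symm, Pi.single_eq_of_ne hjk, add_zero,
        zero_add, sub_zero] at h2 h4
      exact ⟨(mul_eq_zero.1 h2).resolve_right he, (mul_eq_zero.1 h4).resolve_right he⟩
    · simp only [Submodule.coe_sub, Submodule.coe_smul, Prod.fst_sub, Prod.snd_sub,
        Prod.smul_fst, Prod.smul_snd]
      simp only [Algebra.smul_def] at h ⊢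
      linear_combination algebraMap K F e * h
  have h1 : ¬ LinearIndependent K (![⟨_, hw _ (w 1).2 _ (w 2).2⟩, ⟨_, hw _ (w 2).2 _ (w 0).2⟩,
      ⟨_, hw _ (w 0).2 _ (w 1).2⟩] : Fin 3 → sec D) := fun h => by
    have := h.fintype_card_le_finrank
    rw [Fintype.card_fin, ← h0] at this
    omega
  obtain ⟨c, hc, i, hi⟩ := Fintype.not_linearIndependent_iff.1 h1
  have h2 := congrArg Subtype.val hc
  simp only [Fin.sum_univ_three, cons_val_zero, cons_val_one, cons_val, Submodule.coe_add,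
    Submodule.coe_smul, Submodule.coe_zero] at h2
  fin_cases i
  · exact key 1 2 0 (c 1) (c 2) (c 0) (by decide) (by decide) (by decide) hi
      (by rw [← h2]; abel)
  · exact key 2 0 1 (c 2) (c 0) (c 1) (by decide) (by decide) (by decide) hi
      (by rw [← h2]; abel)
  · exact key 0 1 2 (c 0) (c 1) (c 2) (by decide) (by decide) (by decide) hi h2

namespace Mx

variable {m : ℕ} {W T : Divisor K F} (h : Mx m W T)
include h

theorem not_stable (S : CohSys K F 2) (hS : S.HasType (6 * m - 5) (2 * m))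
    (hdet : h0 (S.E.dv - W) = 0) {α : ℝ} (hα : 0 < α) : ¬ S.Stable α := by
  obtain ⟨hd, hn⟩ := hS
  have h3 := h.three
  obtain ⟨A, B, C, ξ, hξ, hdv, hN⟩ := hermite_dv S.E
  have hdeg : deg A + deg B = S.E.deg := by rw [← deg_add, hdv, S.E.deg_dv]
  have hH := HH_fin A B hξ
  have h1 : finrank K S.V ≤ finrank K (HH A B ξ) := by
    rw [← (LinearEquiv.finTwoArrow K F).finrank_map_eq]
    refine Submodule.finrank_mono ?_
    rintro _ ⟨v, hv, rfl⟩ P
    exact (hN P v).1 (S.mem v hv P)
  have h2 := h.can.HH_bound A B hξ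
  have hG := HH_fin (W - B) (W - A) (ξ := -ξ) fun P => (hξ P).neg
  have h4 := h.rr (W - B + (W - A))
  rw [show W - (W - B + (W - A)) = A + B - W by abel, hdv, hdet, deg_add, deg_sub, deg_sub,
    h.degW] at h4
  obtain ⟨u, hu, v, hv, hli, huv⟩ := exists_parallel (H := HH (W - B) (W - A) (-ξ))
    (D := W - B + (W - A)) (by omega) (by omega) fun u hu v hv P => by
      rw [show u.1 * v.2 - u.2 * v.1 = (u.1 - (-ξ) P * u.2) * v.2 -
        (v.1 - (-ξ) P * v.2) * u.2 by ring, Finsupp.add_apply, neg_add]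
      exact ((hu P).2.mul (hv P).1).sub ((hv P).2.mul (hu P).1)
  have hu0 : u ≠ 0 := hli.ne_zero 0
  obtain ⟨f, rfl⟩ : ∃ f : F, v = f • u := by
    by_cases h5 : u.1 = 0
    · have h6 : u.2 ≠ 0 := fun e => hu0 (Prod.ext h5 e)
      rw [h5, zero_mul, zero_sub, neg_eq_zero, mul_eq_zero] at huv
      exact ⟨v.2 / u.2, Prod.ext (by simp [h5, huv.resolve_left h6]) (by simp [h6])⟩
    · refine ⟨v.1 / u.1, Prod.ext (by simp [h5]) ?_⟩
      rw [Prod.smul_snd, smul_eq_mul]
      field_simp
      linear_combination huv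
  have h5 : LinearIndependent K ![(1 : F), f] := by
    rw [LinearIndependent.pair_iff] at hli ⊢
    intro s t hst
    refine hli s t ?_
    have := congrArg (· • u) hst
    simpa [add_smul] using this
  obtain ⟨D, hD1, hD2⟩ := exists_base (K := K) ![(1 : F), f] ⟨0, one_ne_zero⟩
  have h6 : 2 ≤ h0 D := by
    have := finrank_span_eq_card h5
    rw [Fintype.card_fin] at this
    exact this.ge.trans (Submodule.finrank_mono
      (Submodule.span_le.2 (Set.range_subset_iff.2 hD1)))
  have h7 := h.gon (D := D)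
  have h8 := h.cl D h6
  refine not_stable_of_hom S hdeg hN (W := W - D) (w := u) (fun P => ?_) hu0
    (by rw [deg_sub, h.degW]; omega) (by omega) (by omega) hα
  have hb : Bpf D ![(1 : F), f] := ⟨hD1, hD2⟩
  constructor
  · refine (hb.ge (P := P) (n := -(W - A) P) (f := u.2) fun i => ?_).mono (by
      simp only [Finsupp.sub_apply]; omega)
    fin_cases i
    · simpa using (hu P).1
    · simpa [mul_comm] using (hv P).1
  · refine (hb.ge (P := P) (n := -(W - B) P) (f := u.1 - (-ξ) P * u.2) fun i => ?_).mono (by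
      simp only [Finsupp.sub_apply]; omega)
    fin_cases i
    · simpa using (hu P).2
    · have := (hv P).2
      rwa [show (f • u).1 - (-ξ) P * (f • u).2 = (u.1 - (-ξ) P * u.2) * f by
        simp only [Prod.smul_fst, Prod.smul_snd, smul_eq_mul]; ring] at this

theorem exists_stable_two : ∃ S : CohSys K F 2, S.HasType (6 * m - 5) (2 * m) ∧ S.Generated ∧
    ∃ ε : ℝ, 0 < ε ∧ ∀ α, 0 < α → α < ε → S.Stable α := by
  have h3 := h.three
  obtain ⟨B, a, y, x, hB, hD⟩ := h.exists_dat₂
  have hA := h.degQ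
  generalize W - T = A at hA hD
  let q : Fin m ⊕ Fin m → Fin 2 → F := Sum.elim (fun i => ![a i, 0]) fun j => ![x j, y j]
  have hli : LinearIndependent K q := by
    rw [Fintype.linearIndependent_iff]
    intro c hc
    rw [Fintype.sum_sum_type] at hc
    have h1 := congrFun hc 1
    have h2 := congrFun hc 0
    simp only [q, Sum.elim_inl, Sum.elim_inr, Pi.add_apply, Finset.sum_apply, Pi.smul_apply,
      cons_val_one, cons_val_fin_one, smul_zero, Finset.sum_const_zero, zero_add, Pi.zero_apply,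
      cons_val_zero] at h1 h2
    have h4 := Fintype.linearIndependent_iff.1 hD.hy _ h1
    simp only [h4, zero_smul, Finset.sum_const_zero, add_zero] at h2
    rintro (i | j)
    · exact Fintype.linearIndependent_iff.1 hD.ha _ h2 i
    · exact h4 j
  choose ξ hξ using hD.hx
  have hst : ∀ (P : Place K F) v, v ∈ P.lat q ↔
      P.Ge (-B P) (v 1) ∧ P.Ge (-A P) (v 0 - ξ P * v 1) := by
    intro P v
    constructor
    · rintro ⟨c, hc, rfl⟩
      simp only [Finset.sum_apply, Finset.mul_sum, ← Finset.sum_sub_distrib, Pi.smul_apply,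
        smul_eq_mul]
      refine ⟨Place.ge_sum ?_, Place.ge_sum ?_⟩
      · rintro (i | j) -
        · simpa [q] using P.ge_zero _
        · exact (hc _).mul0 (hD.hyb.1 j P)
      · rintro (i | j) -
        · simpa [q] using (hc _).mul0 (hD.hab.1 i P)
        · rw [mul_left_comm, ← mul_sub]
          exact (hc _).mul0 (hξ P j)
    · rintro ⟨h1, h2⟩
      obtain ⟨i, hi, hi'⟩ := hD.hab.2 P
      obtain ⟨j, hj, hj'⟩ := hD.hyb.2 P
      have h4 : P.Ge 0 (v 1 / y j) := Place.Ge.of_mul hj (by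
        rwa [div_mul_cancel₀ _ hj, zero_add, hj'])
      have h5 : P.Ge 0 ((v 0 - ξ P * v 1 - v 1 / y j * (x j - ξ P * y j)) / a i) :=
        Place.Ge.of_mul hi (by
          rw [div_mul_cancel₀ _ hi, zero_add, hi']
          exact h2.sub (h4.mul0 (hξ P j)))
      have h6 := Place.lat_add (Place.lat_smul h5 (Place.lat_self q (Sum.inl i)))
        (Place.lat_smul h4 (Place.lat_self q (Sum.inr j)))
      refine (congrArg (· ∈ P.lat q) (funext fun k => ?_)).mp h6
      fin_cases k
      · simp only [q, Sum.elim_inl, Sum.elim_inr, Fin.zero_eta, Pi.add_apply, Pi.smul_apply,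
          cons_val_zero, smul_eq_mul]
        field_simp
        ring
      · simp [q, hj]
  have hq : Submodule.span F (Set.range q) = ⊤ := by
    obtain ⟨P⟩ : Nonempty (Place K F) := inferInstance
    rw [eq_top_iff]
    intro v _
    obtain ⟨f, hf, hf1⟩ := CohSys.exists_scale P
      ![v 1 / y ⟨0, by omega⟩, (v 0 - ξ P * v 1) / a ⟨0, by omega⟩]
    rw [← Submodule.smul_mem_iff _ hf]
    obtain ⟨c, -, e⟩ := (hst P (f • v)).2 ⟨by
      have := (hf1 0).mul0 (hD.hyb.1 ⟨0, by omega⟩ P)
      rwa [cons_val_zero, mul_assoc, div_mul_cancel₀ _ (hD.hy.ne_zero _)] at this, by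
      have := (hf1 1).mul0 (hD.hab.1 ⟨0, by omega⟩ P)
      rwa [cons_val_one, cons_val_fin_one, mul_assoc, div_mul_cancel₀ _ (hD.ha.ne_zero _),
        mul_sub, mul_left_comm] at this⟩
    exact (Submodule.mem_span_range_iff_exists_fun F).2 ⟨c, e.symm⟩
  obtain ⟨E, hE⟩ := exists_bundle K hq
  have hd : E.deg = 6 * m - 5 := by
    obtain ⟨L, hL, hL'⟩ := exists_line A
    obtain ⟨M, hM, hM'⟩ := exists_line B
    let π : (Fin 2 → F) →ₗ[F] (Fin 1 → F) := LinearMap.pi fun _ => LinearMap.proj 1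
    have hπ : ∀ v, π v = 0 ↔ v 1 = 0 := fun v => ⟨fun e => congrFun e 0, fun e => funext fun _ => e⟩
    have he : ∀ v : Fin 2 → F, v 1 = 0 → lineMap ![(1 : F), 0] (fun _ => v 0) = v := fun v hv => by
      ext k; fin_cases k <;> simp [hv]
    have hex : Ex (lineMap ![(1 : F), 0]) π := ⟨lineMap_inj (by simp),
      fun w => ⟨![0, w 0], funext fun k => by rw [Subsingleton.elim k 0]; rfl⟩, by
        ext v
        rw [LinearMap.mem_ker, hπ]
        exact ⟨by rintro ⟨c, rfl⟩; simp, fun hv => ⟨_, he v hv⟩⟩⟩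
    have := Bundle.deg_add_eq hex (E' := L) (E := E) (Q := M) (fun P v hv => ?_) (fun P => ?_)
      fun P v hv hv0 => ?_
    · omega
    · rw [hE, hst]
      simpa using ⟨P.ge_zero _, (hL' P v).1 hv⟩
    · ext w
      rw [hM', hE]
      constructor
      · rintro ⟨v, hv, rfl⟩
        exact ((hst P v).1 hv).1
      · intro hw
        exact ⟨![ξ P * w 0, w 0], (hst P _).2 ⟨hw, by simpa using P.ge_zero _⟩,
          funext fun k => by rw [Subsingleton.elim k 0]; rfl⟩
    · rw [hE, hst, (hπ v).1 hv0, mul_zero, sub_zero] at hv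
      exact ⟨_, (hL' P _).2 hv.2, he v ((hπ v).1 hv0)⟩
  obtain ⟨S, -, hS, hS'⟩ := small_stable two_pos hli hE fun k N φ hk hk2 hφ hN => by
    obtain rfl : k = 1 := by omega
    set t := φ fun _ => 1 with ht
    have h1 : ∀ P, (N.g P).det • t ∈ P.lat q := fun P => by
      rw [← hE, ht, ← map_smul, det_fin_one]
      refine hN P ((congrArg (· ∈ N.stalk P) (funext fun k => ?_)).mp (N.row_mem P 0))
      rw [Subsingleton.elim k 0]; simp
    have h2 : t ≠ 0 := fun e => one_ne_zero (congrFun (hφ (e.trans (map_zero φ).symm)) 0)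
    have h4 : N.deg ≤ 3 * m - 3 := by
      rw [← N.deg_dv]
      by_cases h5 : t 1 = 0
      · have h6 : t 0 ≠ 0 := fun e => h2 (funext fun k => by fin_cases k <;> assumption)
        have h7 : N.dv ≤ A + div K (t 0) := fun P => by
          have := ((hst P _).1 (h1 P)).2
          simp only [Pi.smul_apply, smul_eq_mul, h5, mul_zero, sub_zero] at this
          have := this.le (mul_ne_zero (N.det_ne P) h6)
          rw [P.ord_mul (N.det_ne P) h6] at this
          rw [N.dv_apply, Finsupp.add_apply, div_apply]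
          omega
        have := deg_mono h7
        rwa [deg_add, deg_div, add_zero, hA] at this
      · have h7 : N.dv ≤ B + div K (t 1) := fun P => by
          have := ((hst P _).1 (h1 P)).1.le (mul_ne_zero (N.det_ne P) h5)
          rw [Pi.smul_apply, smul_eq_mul, P.ord_mul (N.det_ne P) h5] at this
          rw [N.dv_apply, Finsupp.add_apply, div_apply]
          omega
        by_contra hc
        have h8 := eq_of_le_deg h7 (by rw [deg_add, deg_div, hB]; omega)
        refine hD.nonsplit (t 0 / t 1) fun j P => ?_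
        have h9 := ((hst P _).1 (h1 P)).2
        have h10 := congrArg (· P) h8
        simp only [N.dv_apply, Finsupp.add_apply, div_apply] at h10
        have h11 : P.Ge (B P - A P) (t 0 / t 1 - ξ P) := by
          refine Place.Ge.of_mul (mul_ne_zero (N.det_ne P) h5) ?_
          rw [P.ord_mul (N.det_ne P) h5, show (t 0 / t 1 - ξ P) * ((N.g P).det * t 1) =
            ((N.g P).det • t) 0 - ξ P * ((N.g P).det • t) 1 by
              simp only [Pi.smul_apply, smul_eq_mul]; field_simp]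
          exact h9.mono (by omega)
        rw [show x j - t 0 / t 1 * y j = x j - ξ P * y j - (t 0 / t 1 - ξ P) * y j by ring]
        exact (hξ P j).sub ((h11.mul (hD.hyb.1 j P)).mono (by omega))
    push_cast
    omega
  rw [hd, Fintype.card_sum, Fintype.card_fin, ← two_mul] at hS
  exact ⟨S, hS, hS'⟩

end Mx

theorem lin_dualSpan {r k : ℕ} {S : CohSys K F r} {T : CohSys K F k} (h : S.Generated)
    (hT : S.IsDualSpan T) : Lin S.E.dv T.E.dv := by
  have hdeg := h.deg_dualSpan hT
  obtain ⟨n, s, t, -, hs, -, h1, h2⟩ := hT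
  obtain ⟨M, hM, hM'⟩ := exists_dual T.E
  obtain ⟨O, hO, hO'⟩ := exists_triv K F n
  obtain ⟨c, hc, e⟩ := lin_of_deg (CohSys.ex_of (h.span_eq hs) h1 h2) (E' := M) (E := O)
    (Q := S.E) (fun P v hv => (hO' P _).2 ((h2 P).le ⟨v, (hM' P v).1 hv, rfl⟩).1)
    (fun P => by
      rw [h.stalk_eq hs]
      rintro _ ⟨c, hc, rfl⟩
      exact ⟨c, (hO' P c).2 hc, rfl⟩) (by omega)
  have h3 : M.dv = -T.E.dv := by
    refine eq_of_le_deg (fun P => ?_) (by rw [deg_neg, M.deg_dv, T.E.deg_dv, hM])
    have h4 := Place.ge_det (P := P) (M := T.E.g P * (M.g P)ᵀ) fun i j =>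
      (hM' P _).1 (M.row_mem P j) _ (T.E.row_mem P i)
    rw [det_mul, det_transpose] at h4
    have h5 := h4.le (mul_ne_zero (T.E.det_ne P) (M.det_ne P))
    rw [P.ord_mul (T.E.det_ne P) (M.det_ne P)] at h5
    rw [Finsupp.neg_apply, M.dv_apply, T.E.dv_apply]
    omega
  rw [h3, dv_triv hO hO', zero_add] at e
  exact ⟨c, hc, by rw [← e]; abel⟩

theorem exists_mx {m : ℕ} (hm : 3 ≤ m) (hg : genus K F = 2 * m) {W T : Divisor K F}
    (hW : deg W = 4 * m - 2) (hW' : h0 W = 2 * m)
    (cl : ∀ D : Divisor K F, 2 ≤ h0 D → 2 ≤ h0 (W - D) → (m : ℤ) - 1 ≤ deg D - 2 * (h0 D - 1))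
    (hT : deg T = m + 1) (hT' : 2 ≤ h0 T) : Mx m W T := by
  obtain ⟨W0, hW0⟩ := riemann_roch K F
  have h1 := hW0 0
  have h2 := hW0 W0
  have h3 := hW0 W
  rw [h0_zero, deg_zero, sub_zero] at h1
  rw [sub_self, h0_zero] at h2
  obtain ⟨f, hf, hf0⟩ := exists_ne_of_h0 (D := W0 - W) (by omega)
  have h4 := eq_zero_of_deg_eq_zero ((mem_sec_iff hf0).1 hf) (by
    rw [deg_add, deg_div, deg_sub]; omega)
  have h5 : Lin W W0 := ⟨f, hf0, by rw [eq_neg_of_add_eq_zero_left h4]; abel⟩
  have rr : ∀ D : Divisor K F, (h0 D : ℤ) = deg D + 1 - 2 * m + h0 (W - D) := fun D => by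
    rw [hW0 D, h5.h0_sub, hg]; push_cast; ring
  refine ⟨hg, rr, fun D a b => ?_, hm, hT, hT'⟩
  have := cl D a b
  have := rr D
  omega

end Pool.Agent.MP_79c67d_ag.H36
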